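import Pool.Agent.T9h72.FM.Refine

/-!
# Groups of semilinear automorphisms of `Ω ^ ι`
-/

namespace Pool.T9h72.FM

open Submodule

section Nil

variable {G : Type*} [Group G]

theorem nil_step (S T : Subgroup G) (hS : Group.IsNilpotent S) (h : ∃ a ∈ S, a ∉ T) :
    ∃ y ∈ S, y ∉ T ∧ ∀ a ∈ S, a * y * a⁻¹ * y⁻¹ ∈ T := by
  classical
  obtain ⟨n, hn⟩ := (Subgroup.isNilpotent_iff_lowerCentralSeries S).mp hS
  have hex : ∃ m, S.lowerCentralSeries m ≤ T := ⟨n, by rw [hn]; exact bot_le⟩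
  obtain ⟨a, haS, haT⟩ := h
  have hspec := Nat.find_spec hex
  have hmin := fun m => Nat.find_min (H := hex) (m := m)
  cases hm : Nat.find hex with
  | zero =>
    rw [hm] at hspec
    exact absurd (hspec haS) haT
  | succ m =>
    rw [hm] at hspec hmin
    have h1 := hmin m (Nat.lt_succ_self m)
    rw [SetLike.not_le_iff_exists] at h1
    obtain ⟨y, hy, hyT⟩ := h1
    have hle : S.lowerCentralSeries m ≤ S := by
      clear hspec hmin hy hm
      induction m with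
      | zero => exact le_refl _
      | succ m ih =>
        rw [Subgroup.lowerCentralSeries_succ, Subgroup.commutator_le]
        intro p hp q hq
        rw [commutatorElement_def]
        exact S.mul_mem (S.mul_mem (S.mul_mem (ih hp) hq) (S.inv_mem (ih hp))) (S.inv_mem hq)
    refine ⟨y, hle hy, hyT, fun a ha => ?_⟩
    have h2 := Subgroup.commutator_mem_commutator hy ha
    rw [← Subgroup.lowerCentralSeries_succ] at h2
    have h3 := T.inv_mem (hspec h2)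
    rw [commutatorElement_def] at h3
    convert h3 using 1
    group

theorem nil_mono {A B : Subgroup G} (h : A ≤ B) (hB : Group.IsNilpotent B) :
    Group.IsNilpotent A := by
  rw [Subgroup.isNilpotent_iff_lowerCentralSeries] at hB ⊢
  obtain ⟨n, hn⟩ := hB
  exact ⟨n, le_bot_iff.mp (hn ▸ Subgroup.lowerCentralSeries_mono n h)⟩

end Nil

section Ambient

variable (k Ω ι : Type*) [Field k] [Field Ω] [Algebra k Ω]

/-- The ambient group: pairs of a field automorphism and a permutation of `Ω ^ ι`. -/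
abbrev Amb := (Ω ≃ₐ[k] Ω) × Equiv.Perm (ι → Ω)

variable {k Ω}

/-- The coordinatewise action of a field automorphism. -/
def coordAct (σ : Ω ≃ₐ[k] Ω) : Equiv.Perm (ι → Ω) where
  toFun v := fun i => σ (v i)
  invFun v := fun i => σ.symm (v i)
  left_inv v := by funext i; simp
  right_inv v := by funext i; simp

variable (k Ω)

/-- The coordinatewise action, as a section of the ambient group. -/
def sec : (Ω ≃ₐ[k] Ω) →* Amb k Ω ι where
  toFun σ := (σ, coordAct ι σ)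
  map_one' := by
    apply Prod.ext
    · rfl
    · apply Equiv.ext
      intro v
      rfl
  map_mul' σ τ := by
    apply Prod.ext
    · rfl
    · apply Equiv.ext
      intro v
      rfl

variable {k Ω ι}

theorem sec_fst (σ : Ω ≃ₐ[k] Ω) : (sec k Ω ι σ).1 = σ := rfl

theorem sec_snd (σ : Ω ≃ₐ[k] Ω) (v : ι → Ω) (i : ι) : (sec k Ω ι σ).2 v i = σ (v i) := rfl

/-- A subgroup consisting of semilinear automorphisms. -/
def IsSemi (H : Subgroup (Amb k Ω ι)) : Prop :=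
  (∀ h ∈ H, ∀ v w : ι → Ω, h.2 (v + w) = h.2 v + h.2 w) ∧
    ∀ h ∈ H, ∀ (c : Ω) (v : ι → Ω), h.2 (c • v) = h.1 c • h.2 v

/-- A subgroup containing the coordinatewise action of all automorphisms fixing some finite set. -/
def IsOp (H : Subgroup (Amb k Ω ι)) : Prop :=
  ∃ F : Finset Ω, ∀ σ : Ω ≃ₐ[k] Ω, (∀ x ∈ F, σ x = x) → sec k Ω ι σ ∈ H

/-- The linear part of a group of semilinear automorphisms. -/
def lin (H : Subgroup (Amb k Ω ι)) : Subgroup (Amb k Ω ι) :=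
  H ⊓ (MonoidHom.fst (Ω ≃ₐ[k] Ω) (Equiv.Perm (ι → Ω))).ker

theorem mem_lin {H : Subgroup (Amb k Ω ι)} {h : Amb k Ω ι} : h ∈ lin H ↔ h ∈ H ∧ h.1 = 1 := by
  rw [lin, Subgroup.mem_inf, MonoidHom.mem_ker]
  rfl

theorem lin_mono {H' H : Subgroup (Amb k Ω ι)} (h : H' ≤ H) : lin H' ≤ lin H :=
  inf_le_inf_right _ h

/-- The image of `H` in the Galois group is covered by `c` left translates of the image
of `H'`. -/
def Bd (c : ℕ) (H' H : Subgroup (Amb k Ω ι)) : Prop :=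
  ∃ s : Finset (Ω ≃ₐ[k] Ω), s.card ≤ c ∧ ∀ h ∈ H, ∃ x ∈ s, ∃ h' ∈ H', h.1 = x * h'.1

theorem Bd.trans {c d : ℕ} {H₀ H₁ H₂ : Subgroup (Amb k Ω ι)} (h : Bd c H₁ H₀) (h' : Bd d H₂ H₁) :
    Bd (c * d) H₂ H₀ := by
  classical
  obtain ⟨s, hs, hs'⟩ := h
  obtain ⟨t, ht, ht'⟩ := h'
  refine ⟨(s ×ˢ t).image (fun p => p.1 * p.2), ?_, ?_⟩
  · refine Finset.card_image_le.trans ?_
    rw [Finset.card_product]
    exact Nat.mul_le_mul hs ht
  · intro g hg
    obtain ⟨x, hx, h1, hh1, e1⟩ := hs' g hg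
    obtain ⟨y, hy, h2, hh2, e2⟩ := ht' h1 hh1
    refine ⟨x * y, ?_, h2, hh2, ?_⟩
    · rw [Finset.mem_image]
      exact ⟨(x, y), Finset.mem_product.mpr ⟨hx, hy⟩, rfl⟩
    · rw [e1, e2, mul_assoc]

theorem Bd.mono {c d : ℕ} {H₀ H₁ : Subgroup (Amb k Ω ι)} (h : Bd c H₁ H₀) (hcd : c ≤ d) :
    Bd d H₁ H₀ := by
  obtain ⟨s, hs, hs'⟩ := h
  exact ⟨s, hs.trans hcd, hs'⟩

theorem Bd.refl (H : Subgroup (Amb k Ω ι)) : Bd 1 H H := by
  refine ⟨{1}, by simp, fun h hh => ⟨1, by simp, h, hh, by rw [one_mul]⟩⟩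

theorem bd_of_inv {X : Type*} (H H' : Subgroup (Amb k Ω ι)) (φ : H → X) (s : Finset X)
    (hs : ∀ h, φ h ∈ s) (hφ : ∀ h h' : H, φ h = φ h' → (h : Amb k Ω ι)⁻¹ * h' ∈ H') :
    Bd s.card H' H := by
  classical
  refine ⟨s.image (fun x => if hx : ∃ g : H, φ g = x then (hx.choose : Amb k Ω ι).1 else 1),
    Finset.card_image_le, ?_⟩
  intro h hh
  have hx : ∃ g : H, φ g = φ ⟨h, hh⟩ := ⟨⟨h, hh⟩, rfl⟩
  refine ⟨(hx.choose : Amb k Ω ι).1, ?_, (hx.choose : Amb k Ω ι)⁻¹ * h, ?_, ?_⟩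
  · rw [Finset.mem_image]
    refine ⟨φ ⟨h, hh⟩, hs _, ?_⟩
    rw [dif_pos hx]
  · exact hφ hx.choose ⟨h, hh⟩ hx.choose_spec
  · change _ = _ * ((hx.choose : Amb k Ω ι).1⁻¹ * h.1)
    rw [mul_inv_cancel_left]

theorem IsSemi.mono {H' H : Subgroup (Amb k Ω ι)} (hH : IsSemi H) (h : H' ≤ H) : IsSemi H' :=
  ⟨fun g hg => hH.1 g (h hg), fun g hg => hH.2 g (h hg)⟩

/-- Decomposition of elements whose scalar part fixes a large finite set. -/
theorem op_decomp {H : Subgroup (Amb k Ω ι)} {F : Finset Ω}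
    (hF : ∀ σ : Ω ≃ₐ[k] Ω, (∀ x ∈ F, σ x = x) → sec k Ω ι σ ∈ H)
    (h : Amb k Ω ι) (hh : h ∈ H) (hfix : ∀ x ∈ F, h.1 x = x) :
    ∃ a ∈ lin H, h = a * sec k Ω ι h.1 := by
  refine ⟨h * (sec k Ω ι h.1)⁻¹, ?_, by group⟩
  rw [mem_lin]
  refine ⟨H.mul_mem hh (H.inv_mem (hF _ hfix)), ?_⟩
  change h.1 * (h.1)⁻¹ = 1
  rw [mul_inv_cancel]

/-- A vector is fixed by the coordinatewise action of automorphisms fixing its coordinates. -/
theorem smooth_vec [Fintype ι] (v : ι → Ω) :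
    ∃ F : Finset Ω, ∀ σ : Ω ≃ₐ[k] Ω, (∀ x ∈ F, σ x = x) → (sec k Ω ι σ).2 v = v := by
  classical
  refine ⟨Finset.univ.image v, fun σ hσ => ?_⟩
  funext i
  rw [sec_snd]
  exact hσ _ (Finset.mem_image_of_mem _ (Finset.mem_univ i))

theorem smooth_fin [Fintype ι] {J : Type*} [Finite J] (v : J → (ι → Ω)) :
    ∃ F : Finset Ω, ∀ σ : Ω ≃ₐ[k] Ω, (∀ x ∈ F, σ x = x) →
      ∀ j, (sec k Ω ι σ).2 (v j) = v j := by
  classical
  have := Fintype.ofFinite J
  choose F hF using fun j => smooth_vec (k := k) (v j)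
  refine ⟨Finset.univ.biUnion F, fun σ hσ j => hF j σ fun x hx => hσ x ?_⟩
  rw [Finset.mem_biUnion]
  exact ⟨j, Finset.mem_univ _, hx⟩

/-- Two semilinear maps agreeing on a spanning family agree. -/
theorem semi_ext {M M' : Type*} [AddCommGroup M] [AddCommGroup M'] [Module Ω M] [Module Ω M']
    (σ : Ω ≃ₐ[k] Ω) (f g : M →+ M') (hf : ∀ (c : Ω) m, f (c • m) = σ c • f m)
    (hg : ∀ (c : Ω) m, g (c • m) = σ c • g m) {J : Type*} (b : Module.Basis J Ω M)
    (h : ∀ j, f (b j) = g (b j)) (m : M) : f m = g m := by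
  have hm : m ∈ span Ω (Set.range b) := by rw [b.span_eq]; trivial
  induction hm using span_induction with
  | mem x hx => obtain ⟨j, rfl⟩ := hx; exact h j
  | zero => simp
  | add x y _ _ hx hy => rw [map_add, map_add, hx, hy]
  | smul c x _ hx => rw [hf, hg, hx]

end Ambient

end Pool.T9h72.FM
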