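import Pool.Agent.T9h72.FM.Descent

/-!
# Conjugation of linear operators by semilinear operators
-/

namespace Pool.T9h72.FM

open Submodule

section Conj

variable {k Ω W Γ : Type*} [Group Γ] [Field k] [Field Ω] [Algebra k Ω]
  [AddCommGroup W] [Module Ω W]
  (r : Γ →* (Ω ≃ₐ[k] Ω)) (ρ : Γ →* AddMonoid.End W)
  (hsemi : ∀ γ (c : Ω) (m : W), ρ γ (c • m) = r γ c • ρ γ m)

theorem rho_mul (γ δ : Γ) (w : W) : ρ (γ * δ) w = ρ γ (ρ δ w) := by
  rw [map_mul]; rfl

theorem rho_inv_self (γ : Γ) (w : W) : ρ γ⁻¹ (ρ γ w) = w := by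
  rw [← rho_mul, inv_mul_cancel, map_one]; rfl

theorem rho_self_inv (γ : Γ) (w : W) : ρ γ (ρ γ⁻¹ w) = w := by
  rw [← rho_mul, mul_inv_cancel, map_one]; rfl

theorem rho_eq_zero {γ : Γ} {w : W} (h : ρ γ w = 0) : w = 0 := by
  rw [← rho_inv_self ρ γ w, h, map_zero]

theorem r_self_inv (γ : Γ) (c : Ω) : r γ (r γ⁻¹ c) = c := by
  rw [← AlgEquiv.mul_apply, ← map_mul, mul_inv_cancel, map_one]; rfl

/-- Conjugation of a linear operator by a semilinear one. -/
def cj (γ : Γ) (T : Module.End Ω W) : Module.End Ω W where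
  toFun w := ρ γ (T (ρ γ⁻¹ w))
  map_add' x y := by simp only [map_add]
  map_smul' c x := by
    simp only [hsemi, map_smul, RingHom.id_apply, r_self_inv]

theorem cj_apply (γ : Γ) (T : Module.End Ω W) (w : W) :
    cj r ρ hsemi γ T w = ρ γ (T (ρ γ⁻¹ w)) := rfl

theorem cj_apply' (γ : Γ) (T : Module.End Ω W) (w : W) :
    cj r ρ hsemi γ T (ρ γ w) = ρ γ (T w) := by
  rw [cj_apply, rho_inv_self]

/-- Conjugation as an action by additive endomorphisms. -/
def cjHom : Γ →* AddMonoid.End (Module.End Ω W) where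
  toFun γ :=
    { toFun := fun T => cj r ρ hsemi γ T
      map_zero' := by ext w; simp [cj_apply]
      map_add' := by intro S T; ext w; simp [cj_apply] }
  map_one' := by
    apply AddMonoidHom.ext
    intro T
    apply LinearMap.ext
    intro w
    change ρ 1 (T (ρ 1⁻¹ w)) = T w
    simp
  map_mul' γ δ := by
    apply AddMonoidHom.ext
    intro T
    apply LinearMap.ext
    intro w
    change ρ (γ * δ) (T (ρ (γ * δ)⁻¹ w)) = ρ γ (ρ δ (T (ρ δ⁻¹ (ρ γ⁻¹ w))))
    rw [mul_inv_rev, rho_mul, rho_mul]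

theorem cjHom_apply (γ : Γ) (T : Module.End Ω W) :
    cjHom r ρ hsemi γ T = cj r ρ hsemi γ T := rfl

theorem cj_smul (γ : Γ) (c : Ω) (T : Module.End Ω W) :
    cj r ρ hsemi γ (c • T) = r γ c • cj r ρ hsemi γ T := by
  ext w
  simp [cj_apply, hsemi]

theorem cj_mul (γ : Γ) (S T : Module.End Ω W) :
    cj r ρ hsemi γ (S * T) = cj r ρ hsemi γ S * cj r ρ hsemi γ T := by
  ext w
  simp [cj_apply, rho_inv_self]

theorem cj_one (γ : Γ) :
    cj r ρ hsemi γ (1 : Module.End Ω W) = 1 := by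
  ext w
  simp [cj_apply, rho_self_inv]

theorem cj_sub (γ : Γ) (S T : Module.End Ω W) :
    cj r ρ hsemi γ (S - T) = cj r ρ hsemi γ S - cj r ρ hsemi γ T := by
  ext w
  simp [cj_apply]

theorem cj_comp (γ δ : Γ) (T : Module.End Ω W) :
    cj r ρ hsemi (γ * δ) T = cj r ρ hsemi γ (cj r ρ hsemi δ T) := by
  ext w
  simp only [cj_apply, mul_inv_rev, rho_mul]

theorem cj_unit (T : Module.End Ω W) :
    cj r ρ hsemi 1 T = T := by
  ext w
  simp [cj_apply]

/-- The linear operator given by an element acting trivially on scalars. -/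
def linOp (a : Γ) (ha : r a = 1) : Module.End Ω W where
  toFun w := ρ a w
  map_add' x y := map_add _ _ _
  map_smul' c x := by
    simp [hsemi, ha]

theorem linOp_apply (a : Γ) (ha : r a = 1) (w : W) : linOp r ρ hsemi a ha w = ρ a w := rfl

theorem cj_lin_eq_iff (a : Γ) (T : Module.End Ω W) :
    cj r ρ hsemi a T = T ↔ ∀ w, T (ρ a w) = ρ a (T w) := by
  constructor
  · intro h w
    rw [← cj_apply' r ρ hsemi, h]
  · intro h
    ext w
    rw [cj_apply, ← h, rho_self_inv]

/-- Independence of eigenvectors with distinct characters. -/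
theorem indep_char {A M X : Type*} [Monoid A] [AddCommGroup M] [Module Ω M]
    (τ : A → (M →ₗ[Ω] M)) (χ : X → (A →* Ω)) (hχ : Function.Injective χ) (y : X → M)
    (hy : ∀ x, y x ≠ 0) (hτ : ∀ x a, τ a (y x) = χ x a • y x) :
    LinearIndependent Ω y := by
  have hli : LinearIndependent Ω (fun x : X => ((χ x : A →* Ω) : A → Ω)) :=
    (linearIndependent_monoidHom A Ω).comp χ hχ
  rw [linearIndependent_iff'] at hli ⊢
  intro s g hg i hi
  by_contra hgi
  apply hy i
  rw [← Module.forall_dual_apply_eq_zero_iff Ω]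
  intro φ
  have h1 : ∀ a, ∑ j ∈ s, (g j * φ (y j)) * χ j a = 0 := by
    intro a
    have h2 : φ (τ a (∑ j ∈ s, g j • y j)) = 0 := by rw [hg]; simp
    rw [← h2]
    simp only [map_sum, map_smul, hτ, smul_eq_mul]
    refine Finset.sum_congr rfl fun j _ => by ring
  have h2 := hli s (fun j => g j * φ (y j)) (by
    funext a
    simpa using h1 a) i hi
  exact (mul_eq_zero.mp h2).resolve_left hgi

end Conj

end Pool.T9h72.FM
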