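import Mathlib

/-!
# Fields of moduli and fields of definition of endomorphisms of projective space

Definitions used in the hand-in on `MP_db5b97_nt`. Throughout `k` is the base field (the problem
has `k = ℚ`) and `Ω` is an algebraic closure of `k`.
-/

namespace Pool.T9h72.FM

section Defs

variable (k Ω : Type*) [Field k] [Field Ω] [Algebra k Ω]

/-- A degree-`d` morphism of `ℙ^N` over `Ω`, given by homogeneous coordinates: a tuple
`(f_0, …, f_N)` of homogeneous polynomials of degree `d` in `N + 1` variables with coefficients in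
`Ω` and no common zero in `Ω ^ (N + 1)` other than `0`. Two such tuples which differ by a common
nonzero scalar represent the same morphism; all notions below only depend on the tuple up to a
common scalar. -/
structure EndPN (N d : ℕ) where
  /-- the tuple of polynomials -/
  poly : Fin (N + 1) → MvPolynomial (Fin (N + 1)) Ω
  homog : ∀ i, (poly i).IsHomogeneous d
  no_zero : ∀ x : Fin (N + 1) → Ω, (∀ i, MvPolynomial.eval x (poly i) = 0) → x = 0

variable {k Ω}

/-- The tuple of `φ⁻¹ ∘ f ∘ φ` for an invertible matrix `φ` (a representative of an element of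
`PGL`) and a tuple `f` of polynomials. -/
noncomputable def conjP {ι : Type*} [Fintype ι] [DecidableEq ι] (φ : GL ι Ω)
    (F : ι → MvPolynomial ι Ω) : ι → MvPolynomial ι Ω := fun i =>
  ∑ j, MvPolynomial.C ((φ⁻¹ : GL ι Ω) i j) *
    MvPolynomial.bind₁ (fun l => ∑ m, MvPolynomial.C (φ l m) * MvPolynomial.X m) (F j)

/-- The tuple `f ^ σ`, obtained by applying the field automorphism `σ` to all coefficients. -/
noncomputable def galP {ι : Type*} (σ : Ω ≃ₐ[k] Ω) (F : ι → MvPolynomial ι Ω) :
    ι → MvPolynomial ι Ω := fun i => MvPolynomial.map (σ : Ω →+* Ω) (F i)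

/-- The morphisms given by the tuples `F` and `G` are conjugate under `PGL(Ω)`: up to a common
nonzero scalar, `G` is `φ⁻¹ ∘ F ∘ φ`. -/
def AreConj {ι : Type*} [Fintype ι] [DecidableEq ι] (F G : ι → MvPolynomial ι Ω) : Prop :=
  ∃ φ : GL ι Ω, ∃ c : Ω, c ≠ 0 ∧ ∀ i, G i = MvPolynomial.C c * conjP φ F i

variable (k)

/-- The field of moduli over `k`: the fixed field of the set of all `σ ∈ Aut(Ω/k)` such that
`f ^ σ` is conjugate to `f` under `PGL(Ω)`. -/
def fom {ι : Type*} [Fintype ι] [DecidableEq ι] (F : ι → MvPolynomial ι Ω) :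
    IntermediateField k Ω where
  carrier := {x | ∀ σ : Ω ≃ₐ[k] Ω, AreConj F (galP σ F) → σ x = x}
  mul_mem' := by
    intro a b ha hb σ hσ
    rw [map_mul, ha σ hσ, hb σ hσ]
  add_mem' := by
    intro a b ha hb σ hσ
    rw [map_add, ha σ hσ, hb σ hσ]
  algebraMap_mem' := fun r σ _ => σ.commutes r
  inv_mem' := by
    intro a ha σ hσ
    rw [map_inv₀, ha σ hσ]

/-- `L` is a field of definition: some conjugate `φ⁻¹ ∘ f ∘ φ`, `φ ∈ PGL(Ω)`, is an `L`-rational
point of the parameter space, i.e. after multiplication with a common nonzero scalar all its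
coefficients lie in `L`. -/
def IsFOD {ι : Type*} [Fintype ι] [DecidableEq ι] (F : ι → MvPolynomial ι Ω)
    (L : IntermediateField k Ω) : Prop :=
  ∃ φ : GL ι Ω, ∃ c : Ω, c ≠ 0 ∧
    ∀ i m, MvPolynomial.coeff m (MvPolynomial.C c * conjP φ F i) ∈ L

variable (Ω)

/-- `FOM/FOD(N, d) = sup_f inf_L [L : K_f]`, the supremum over all degree-`d` morphisms of `ℙ^N`
over `Ω` of the least degree of a field of definition over the field of moduli, as an element of
`ℕ ∪ {∞}`. (`K.relrank L` is the degree `[L : K ∩ L]`; here `K_f ⊆ L` for every field of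
definition `L`, see `fom_le_of_isFOD`, so it is `[L : K_f]`.) -/
noncomputable def FOMFOD (N d : ℕ) : ℕ∞ :=
  ⨆ f : EndPN Ω N d, ⨅ (L : IntermediateField k Ω) (_ : IsFOD k f.poly L),
    Cardinal.toENat ((fom k f.poly).relrank L)

end Defs

end Pool.T9h72.FM
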