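import Pool.Agent.T9h72.FM.Group

/-!
# Degrees of fixed fields
-/

namespace Pool.T9h72.FM

open Submodule

section Deg

variable {k Ω ι : Type*} [Field k] [Field Ω] [Algebra k Ω]

/-- The field fixed by the scalar parts of the elements of `H`. -/
def fixF (H : Subgroup (Amb k Ω ι)) : IntermediateField k Ω where
  carrier := {x | ∀ h ∈ H, h.1 x = x}
  mul_mem' := by
    intro a b ha hb h hh
    rw [map_mul, ha h hh, hb h hh]
  add_mem' := by
    intro a b ha hb h hh
    rw [map_add, ha h hh, hb h hh]
  algebraMap_mem' := fun r h _ => h.1.commutes r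
  inv_mem' := by
    intro a ha h hh
    rw [map_inv₀, ha h hh]

theorem mem_fixF {H : Subgroup (Amb k Ω ι)} {x : Ω} : x ∈ fixF H ↔ ∀ h ∈ H, h.1 x = x := Iff.rfl

theorem fixF_mono {H' H : Subgroup (Amb k Ω ι)} (h : H' ≤ H) : fixF H ≤ fixF H' :=
  fun _ hx g hg => hx g (h hg)

/-- The degree of the fixed field of `H'` over the fixed field of `H` is bounded. -/
theorem relrank_fixF [Algebra.IsAlgebraic k Ω] {H' H : Subgroup (Amb k Ω ι)} (hle : H' ≤ H)
    {c : ℕ} (hbd : Bd c H' H) : (fixF H).relrank (fixF H') ≤ c := by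
  classical
  rw [IntermediateField.relrank_eq_rank_of_le (fixF_mono hle)]
  apply _root_.rank_le
  intro s hs
  by_contra hcon
  push Not at hcon
  obtain ⟨t, ht, ht'⟩ := hbd
  let x : s → Ω := fun i => ((i : IntermediateField.extendScalars (fixF_mono hle)) : Ω)
  have hx : ∀ i, x i ∈ fixF H' := fun i => (i : IntermediateField.extendScalars (fixF_mono hle)).2
  -- the solution space
  let U : Submodule Ω (s → Ω) :=
    { carrier := {u | ∀ h ∈ H, ∑ i, h.1 (x i) * u i = 0}
      zero_mem' := by intro h _; simp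
      add_mem' := by
        intro u v hu hv h hh
        simp only [Pi.add_apply, mul_add, Finset.sum_add_distrib]
        rw [hu h hh, hv h hh, add_zero]
      smul_mem' := by
        intro a u hu h hh
        have := hu h hh
        simp only [Pi.smul_apply, smul_eq_mul]
        have h2 : ∑ i, h.1 (x i) * (a * u i) = a * ∑ i, h.1 (x i) * u i := by
          rw [Finset.mul_sum]
          exact Finset.sum_congr rfl fun i _ => by ring
        rw [h2, this, mul_zero] }
  have hU : ∀ u, u ∈ U ↔ ∀ h ∈ H, ∑ i, h.1 (x i) * u i = 0 := fun u => Iff.rfl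
  obtain ⟨u, huU, hu0⟩ : ∃ u ∈ U, u ≠ 0 := by
    let φ : (s → Ω) →ₗ[Ω] (t → Ω) :=
      { toFun := fun u τ => ∑ i, (τ : Ω ≃ₐ[k] Ω) (x i) * u i
        map_add' := by
          intro u v
          funext τ
          simp only [Pi.add_apply, mul_add, Finset.sum_add_distrib]
        map_smul' := by
          intro a u
          funext τ
          simp only [Pi.smul_apply, smul_eq_mul, RingHom.id_apply, Finset.mul_sum]
          exact Finset.sum_congr rfl fun i _ => by ring }
    have hlt : Module.finrank Ω (t → Ω) < Module.finrank Ω (s → Ω) := by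
      rw [Module.finrank_fintype_fun_eq_card, Module.finrank_fintype_fun_eq_card,
        Fintype.card_coe, Fintype.card_coe]
      omega
    have hker : LinearMap.ker φ ≠ ⊥ := LinearMap.ker_ne_bot_of_finrank_lt hlt
    obtain ⟨u, hu, hu0⟩ := (Submodule.ne_bot_iff _).mp hker
    refine ⟨u, ?_, hu0⟩
    intro h hh
    obtain ⟨τ, hτ, h', hh', e⟩ := ht' h hh
    have h1 : ∀ i, h.1 (x i) = τ (x i) := by
      intro i
      rw [e, AlgEquiv.mul_apply, hx i h' hh']
    simp only [h1]
    exact congrFun (LinearMap.mem_ker.mp hu) ⟨τ, hτ⟩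
  let ρ : H →* AddMonoid.End (s → Ω) :=
    { toFun := fun h =>
        { toFun := fun u i => (h : Amb k Ω ι).1 (u i)
          map_zero' := by funext i; simp
          map_add' := by intro u v; funext i; simp }
      map_one' := by
        apply AddMonoidHom.ext
        intro u
        rfl
      map_mul' := by
        intro a b
        apply AddMonoidHom.ext
        intro u
        rfl }
  have hρ : ∀ (h : H) u i, ρ h u i = (h : Amb k Ω ι).1 (u i) := fun h u i => rfl
  have hstab : ∀ γ, ∀ e ∈ U, ρ γ e ∈ U := by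
    intro γ e he h hh
    have h1 := he ((γ : Amb k Ω ι)⁻¹ * h) (H.mul_mem (H.inv_mem γ.2) hh)
    have h2 : ∀ y, (γ : Amb k Ω ι).1 (((γ : Amb k Ω ι)⁻¹ * h).1 y) = h.1 y := by
      intro y
      change ((γ : Amb k Ω ι).1 * ((γ : Amb k Ω ι).1⁻¹ * h.1)) y = h.1 y
      rw [mul_inv_cancel_left]
    have h3 : (γ : Amb k Ω ι).1 (∑ i, ((γ : Amb k Ω ι)⁻¹ * h).1 (x i) * e i) = 0 := by
      rw [h1, map_zero]
    rw [map_sum] at h3
    rw [← h3]
    refine Finset.sum_congr rfl fun i _ => ?_
    rw [map_mul, h2, hρ]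
  have hd := descent (rH H) ρ (fun h a v => by
      funext i
      rw [hρ, Pi.smul_apply, Pi.smul_apply, smul_eq_mul, smul_eq_mul, map_mul, hρ]
      rfl)
    (fun y => orb_fin' H y) U hstab u huU (Finset.univ.image u) (by
      intro γ hγ
      funext i
      rw [hρ]
      exact hγ _ (Finset.mem_image_of_mem _ (Finset.mem_univ i)))
  obtain ⟨y, hyU, hy0, hy⟩ : ∃ y ∈ U, y ≠ 0 ∧ ∀ γ, ρ γ y = y := by
    by_contra hcon2
    push Not at hcon2
    have h1 : u ∈ (⊥ : Submodule Ω (s → Ω)) := by
      refine (span_le.mpr ?_) hd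
      rintro y ⟨hyU, hy⟩
      by_contra hy0
      obtain ⟨γ, hγ⟩ := hcon2 y hyU hy0
      exact hγ (hy γ)
    exact hu0 ((Submodule.mem_bot Ω).mp h1)
  have hyK : ∀ i, y i ∈ fixF H := by
    intro i h hh
    have := congrFun (hy ⟨h, hh⟩) i
    exact this
  have hrel : ∑ i, x i * y i = 0 := by
    have := hyU 1 H.one_mem
    exact this
  rw [Fintype.linearIndependent_iff] at hs
  have h0 := hs (fun i => ⟨y i, hyK i⟩) (by
    have hinj : Function.Injective
        (fun z : IntermediateField.extendScalars (fixF_mono hle) => (z : Ω)) :=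
      Subtype.val_injective
    apply hinj
    change ((∑ i : s, (⟨y i, hyK i⟩ : fixF H) •
      (i : IntermediateField.extendScalars (fixF_mono hle)) :
        IntermediateField.extendScalars (fixF_mono hle)) : Ω) = 0
    rw [AddSubmonoidClass.coe_finsetSum, ← hrel]
    refine Finset.sum_congr rfl fun i _ => ?_
    change y i * x i = x i * y i
    ring)
  apply hy0
  funext i
  exact congrArg Subtype.val (h0 i)

end Deg

end Pool.T9h72.FM
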