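import Mathlib

/-!
# Galois descent for smooth semilinear actions

An abstract descent lemma: if a group `Γ` acts on a field `Ω` with finite orbits and
semilinearly on an `Ω`-vector space `M`, then a vector which is fixed by all `γ` fixing a given
finite subset of `Ω` lies in the span of the `Γ`-fixed vectors.
-/

namespace Pool.T9h72.FM

open Submodule

section Descent

variable {k Ω M Γ : Type*} [Group Γ] [Field k] [Field Ω] [Algebra k Ω]
  [AddCommGroup M] [Module Ω M]

/-- Galois descent. `Γ` acts on the field `Ω` through `r` with finite orbits, and semilinearly on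
`M` through `ρ`; `E` is a stable subspace. A vector `m` of `E` which is fixed by all elements of
`Γ` fixing a given finite set `F` of scalars is a linear combination of `Γ`-fixed vectors of
`E`. -/
theorem descent (r : Γ →* (Ω ≃ₐ[k] Ω)) (ρ : Γ →* AddMonoid.End M)
    (hsemi : ∀ γ (c : Ω) (m : M), ρ γ (c • m) = r γ c • ρ γ m)
    (horb : ∀ x : Ω, (Set.range fun γ => r γ x).Finite)
    (E : Submodule Ω M) (hE : ∀ γ, ∀ e ∈ E, ρ γ e ∈ E)
    (m : M) (hm : m ∈ E) (F : Finset Ω) (hF : ∀ γ, (∀ x ∈ F, r γ x = x) → ρ γ m = m) :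
    m ∈ span Ω {y | y ∈ E ∧ ∀ γ, ρ γ y = y} := by
  classical
  -- the stabilizer of `F`
  let N : Subgroup Γ :=
    { carrier := {γ | ∀ x ∈ F, r γ x = x}
      one_mem' := by intro x _; simp
      mul_mem' := by
        intro a b ha hb x hx
        rw [map_mul, AlgEquiv.mul_apply, hb x hx, ha x hx]
      inv_mem' := by
        intro a ha x hx
        have h := ha x hx
        rw [map_inv]
        calc (r a)⁻¹ x = (r a)⁻¹ (r a x) := by rw [h]
          _ = x := by rw [← AlgEquiv.mul_apply]; simp }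
  have hN : ∀ γ, γ ∈ N ↔ ∀ x ∈ F, r γ x = x := fun γ => Iff.rfl
  -- the quotient is finite
  have hfin : Finite (Γ ⧸ N) := by
    let X : Set (F → Ω) := Set.pi Set.univ (fun x : F => Set.range fun γ => r γ (x : Ω))
    have hX : X.Finite := Set.Finite.pi fun x => horb x
    have : Finite X := hX
    let g : Γ ⧸ N → X := fun q => ⟨fun x => r q.out x, fun x _ => ⟨q.out, rfl⟩⟩
    refine Finite.of_injective g ?_
    intro q q' h
    have h1 : ∀ x ∈ F, r q.out x = r q'.out x := by
      intro x hx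
      have := congrArg (fun t : X => (t : F → Ω) ⟨x, hx⟩) h
      simpa [g] using this
    rw [← q.out_eq, ← q'.out_eq]
    change (QuotientGroup.mk q.out : Γ ⧸ N) = QuotientGroup.mk q'.out
    rw [QuotientGroup.eq, hN]
    intro x hx
    rw [map_mul, map_inv, AlgEquiv.mul_apply, ← h1 x hx, ← AlgEquiv.mul_apply]
    simp
  have : Fintype (Γ ⧸ N) := Fintype.ofFinite _
  -- the field of `N`-invariants, as a monoid
  let C : Submonoid Ω :=
    { carrier := {c | ∀ γ ∈ N, r γ c = c}
      one_mem' := by intro γ _; simp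
      mul_mem' := by
        intro a b ha hb γ hγ
        rw [map_mul, ha γ hγ, hb γ hγ] }
  have hFC : ∀ x ∈ F, x ∈ C := fun x hx γ hγ => hγ x hx
  let χ : Γ ⧸ N → (C →* Ω) := fun q =>
    ((r q.out : Ω ≃ₐ[k] Ω) : Ω →* Ω).comp C.subtype
  have hχ : ∀ q (c : C), χ q c = r q.out (c : Ω) := fun q c => rfl
  have hχinj : Function.Injective χ := by
    intro q q' h
    rw [← q.out_eq, ← q'.out_eq]
    change (QuotientGroup.mk q.out : Γ ⧸ N) = QuotientGroup.mk q'.out
    rw [QuotientGroup.eq, hN]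
    intro x hx
    have h1 : r q.out x = r q'.out x := by
      have := congrArg (fun t : C →* Ω => t ⟨x, hFC x hx⟩) h
      simpa [hχ] using this
    rw [map_mul, map_inv, AlgEquiv.mul_apply, ← h1, ← AlgEquiv.mul_apply]
    simp
  have hli : LinearIndependent Ω (fun q : Γ ⧸ N => ((χ q : C →* Ω) : C → Ω)) :=
    (linearIndependent_monoidHom C Ω).comp χ hχinj
  -- the averaged vectors
  let y : C → M := fun c => ∑ q : Γ ⧸ N, ρ q.out ((c : Ω) • m)
  have hcm : ∀ (c : C) (γ : Γ), γ ∈ N → ρ γ ((c : Ω) • m) = (c : Ω) • m := by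
    intro c γ hγ
    rw [hsemi, hF γ hγ, c.2 γ hγ]
  have hmk : ∀ (c : C) (γ δ : Γ), (QuotientGroup.mk γ : Γ ⧸ N) = QuotientGroup.mk δ →
      ρ γ ((c : Ω) • m) = ρ δ ((c : Ω) • m) := by
    intro c γ δ h
    rw [QuotientGroup.eq] at h
    have h2 := hcm c _ h
    have : δ = γ * (γ⁻¹ * δ) := by group
    rw [this, map_mul]
    change ρ γ _ = ρ γ (ρ (γ⁻¹ * δ) _)
    rw [h2]
  have hy : ∀ c, y c ∈ E ∧ ∀ γ, ρ γ (y c) = y c := by
    intro c
    refine ⟨E.sum_mem fun q _ => hE _ _ (E.smul_mem _ hm), ?_⟩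
    intro γ
    change ρ γ (∑ q : Γ ⧸ N, ρ q.out ((c : Ω) • m)) = ∑ q : Γ ⧸ N, ρ q.out ((c : Ω) • m)
    rw [map_sum]
    refine Fintype.sum_equiv (MulAction.toPerm γ) _ _ ?_
    intro q
    have h2 : (ρ γ) (ρ q.out ((c : Ω) • m)) = ρ (γ * q.out) ((c : Ω) • m) := by
      rw [map_mul]; rfl
    rw [h2]
    apply hmk
    rw [QuotientGroup.out_eq']
    change _ = γ • q
    conv_rhs => rw [← QuotientGroup.out_eq' q]
    rfl
  by_contra hcon
  obtain ⟨φ, hφm, hφ⟩ := Submodule.exists_le_ker_of_notMem hcon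
  apply hφm
  have hzero : ∀ c : C, ∑ q : Γ ⧸ N, φ (ρ q.out m) * χ q c = 0 := by
    intro c
    have h1 : φ (y c) = 0 := by
      have := hφ (subset_span (hy c))
      simpa using this
    rw [← h1]
    change _ = φ (∑ q : Γ ⧸ N, ρ q.out ((c : Ω) • m))
    rw [map_sum]
    refine Finset.sum_congr rfl fun q _ => ?_
    rw [hsemi, map_smul, smul_eq_mul, mul_comm, hχ]
  rw [Fintype.linearIndependent_iff] at hli
  have h0 := hli (fun q => φ (ρ q.out m)) (by
    funext c
    simpa using hzero c) (QuotientGroup.mk 1)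
  have h1 : (QuotientGroup.mk 1 : Γ ⧸ N).out ∈ N := by
    have : (QuotientGroup.mk 1 : Γ ⧸ N) = QuotientGroup.mk ((QuotientGroup.mk 1 : Γ ⧸ N).out) := by
      rw [QuotientGroup.out_eq']
    rw [QuotientGroup.eq] at this
    simpa using this
  rwa [hF _ h1] at h0

end Descent

end Pool.T9h72.FM
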