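import Pool.Agent.T9h72.FM.Mor

/-!
# The linear automorphism group of a homogeneous self-map is finite
-/

namespace Pool.T9h72.FM

open Submodule

section FinStab

variable {Ω ι : Type*} [Field Ω]

/-- The linear automorphisms commuting with the polynomial map `F`. -/
def AutF (F : ι → MvPolynomial ι Ω) : Subgroup ((ι → Ω) ≃ₗ[Ω] (ι → Ω)) where
  carrier := {T | ∀ v, T (pmap F v) = pmap F (T v)}
  one_mem' := fun _ => rfl
  mul_mem' := by
    intro S T hS hT v
    change S (T (pmap F v)) = pmap F (S (T v))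
    rw [hT, hS]
  inv_mem' := by
    intro T hT v
    change T.symm (pmap F v) = pmap F (T.symm v)
    rw [LinearEquiv.symm_apply_eq, hT, LinearEquiv.apply_symm_apply]

theorem mem_AutF {F : ι → MvPolynomial ι Ω} {T : (ι → Ω) ≃ₗ[Ω] (ι → Ω)} :
    T ∈ AutF F ↔ ∀ v, T (pmap F v) = pmap F (T v) := Iff.rfl

/-- The underlying linear map, as a monoid homomorphism. -/
def toEndHom : ((ι → Ω) ≃ₗ[Ω] (ι → Ω)) →* Module.End Ω (ι → Ω) where
  toFun T := T.toLinearMap
  map_one' := rfl
  map_mul' _ _ := rfl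

theorem toEndHom_apply (T : (ι → Ω) ≃ₗ[Ω] (ι → Ω)) (v : ι → Ω) : toEndHom T v = T v := rfl

variable [IsAlgClosed Ω] [CharZero Ω] [Fintype ι]

omit [IsAlgClosed Ω] [CharZero Ω] in
theorem eig_ne_zero (T : (ι → Ω) ≃ₗ[Ω] (ι → Ω)) (μ : Ω)
    (hμ : (toEndHom T).HasEigenvalue μ) : μ ≠ 0 := by
  rintro rfl
  obtain ⟨v, hv⟩ := hμ.exists_hasEigenvector
  have h := hv.apply_eq_smul
  rw [zero_smul, toEndHom_apply] at h
  exact hv.2 (T.map_eq_zero_iff.mp h)

theorem eig_root {d : ℕ} (hd : 2 ≤ d) {F : ι → MvPolynomial ι Ω} (hF : IsMor d F)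
    (T : (ι → Ω) ≃ₗ[Ω] (ι → Ω)) (hT : T ∈ AutF F) (μ : Ω)
    (hμ : (toEndHom T).HasEigenvalue μ) : μ ^ (d ^ Fintype.card ι).factorial = 1 :=
  eigen_root hd hF (toEndHom T) hT μ hμ (eig_ne_zero T μ hμ)

theorem aut_exponent {d : ℕ} (hd : 2 ≤ d) {F : ι → MvPolynomial ι Ω} (hF : IsMor d F)
    (T : (ι → Ω) ≃ₗ[Ω] (ι → Ω)) (hT : T ∈ AutF F) :
    T ^ (d ^ Fintype.card ι).factorial = 1 := by
  classical
  set M := (d ^ Fintype.card ι).factorial with hM
  have hMpos : 0 < M := Nat.factorial_pos _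
  set U := T ^ M with hU
  have hUmem : U ∈ AutF F := (AutF F).pow_mem hT M
  -- all eigenvalues of `U` are one
  have heig : ∀ μ, (toEndHom U).HasEigenvalue μ → μ = 1 := by
    intro μ hμ
    rw [Module.End.hasEigenvalue_iff_mem_spectrum, hU, map_pow,
      spectrum.map_pow_of_pos _ hMpos] at hμ
    obtain ⟨ν, hν, rfl⟩ := hμ
    rw [← Module.End.hasEigenvalue_iff_mem_spectrum] at hν
    exact eig_root hd hF T hT ν hν
  have htop : (toEndHom U).maxGenEigenspace 1 = ⊤ := by
    rw [eq_top_iff, ← Module.End.iSup_maxGenEigenspace_eq_top (toEndHom U)]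
    apply iSup_le
    intro μ
    by_cases h1 : μ = 1
    · rw [h1]
    · have hnot : ¬ (toEndHom U).HasEigenvalue μ := fun h => h1 (heig μ h)
      have : (toEndHom U).maxGenEigenspace μ = ⊥ := by
        by_contra hne
        apply hnot
        rw [Module.End.maxGenEigenspace_eq_genEigenspace_finrank] at hne
        exact Module.End.hasEigenvalue_of_hasGenEigenvalue (k := Module.finrank Ω (ι → Ω)) hne
      rw [this]; exact bot_le
  have hnil : IsNilpotent (toEndHom U - 1) := by
    refine ⟨Module.finrank Ω (ι → Ω), ?_⟩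
    apply LinearMap.ext
    intro v
    have hv : v ∈ (toEndHom U).maxGenEigenspace 1 := by rw [htop]; trivial
    rw [Module.End.maxGenEigenspace_eq_genEigenspace_finrank,
      Module.End.mem_genEigenspace_nat] at hv
    rw [LinearMap.mem_ker, one_smul] at hv
    exact hv
  have h0 := unip_trivial hd hF (toEndHom U - 1) hnil (by
    intro v
    rw [add_sub_cancel]
    exact hUmem v)
  apply LinearEquiv.ext
  intro v
  have h1 := congrArg (fun S : Module.End Ω (ι → Ω) => S v) h0
  simp only [LinearMap.sub_apply, LinearMap.zero_apply, toEndHom_apply] at h1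
  exact sub_eq_zero.mp h1

/-- The set of possible traces is finite. -/
theorem trace_mem {d : ℕ} (hd : 2 ≤ d) {F : ι → MvPolynomial ι Ω} (hF : IsMor d F) :
    ∃ Θ : Set Ω, Θ.Finite ∧ ∀ T ∈ AutF F, LinearMap.trace Ω (ι → Ω) (toEndHom T) ∈ Θ := by
  classical
  set M := (d ^ Fintype.card ι).factorial with hM
  have hMpos : 0 < M := Nat.factorial_pos _
  let S : Finset Ω := Polynomial.nthRootsFinset M (1 : Ω)
  let n := Fintype.card ι
  let P : Multiset (Multiset Ω) := Multiset.powersetCard n (n • S.val)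
  refine ⟨{x | x ∈ P.map Multiset.sum}, ?_, ?_⟩
  · refine (Multiset.toFinset (P.map Multiset.sum)).finite_toSet.subset ?_
    intro x hx
    simpa using hx
  · intro T hT
    have hsplit : (toEndHom T).charpoly.Splits := IsAlgClosed.splits _
    rw [Set.mem_ofPred_eq, Module.End.trace_eq_sum_roots_charpoly_of_splits hsplit]
    apply Multiset.mem_map_of_mem
    rw [Multiset.mem_powersetCard]
    have hcard : Multiset.card (toEndHom T).charpoly.roots = n := by
      rw [← hsplit.natDegree_eq_card_roots, LinearMap.charpoly_natDegree,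
        Module.finrank_fintype_fun_eq_card]
    refine ⟨?_, hcard⟩
    rw [Multiset.le_iff_count]
    intro x
    by_cases hx : x ∈ (toEndHom T).charpoly.roots
    · have hxS : x ∈ S := by
        rw [Polynomial.mem_nthRootsFinset hMpos]
        apply eig_root hd hF T hT x
        rw [Module.End.hasEigenvalue_iff_isRoot_charpoly]
        exact (Polynomial.mem_roots (LinearMap.charpoly_monic _).ne_zero).mp hx
      rw [Multiset.count_nsmul, Multiset.count_eq_one_of_mem S.nodup hxS, mul_one, ← hcard]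
      exact Multiset.count_le_card _ _
    · rw [Multiset.count_eq_zero_of_notMem hx]
      exact Nat.zero_le _

/-- An operator of finite order all of whose powers have full trace is trivial. -/
theorem trivial_of_trace {M : ℕ} (hM : 0 < M) (g : (ι → Ω) ≃ₗ[Ω] (ι → Ω)) (hg : g ^ M = 1)
    (htr : ∀ j : ℕ, LinearMap.trace Ω (ι → Ω) (toEndHom (g ^ j)) = (Fintype.card ι : Ω)) :
    g = 1 := by
  classical
  let e : (ι → Ω) →ₗ[Ω] (ι → Ω) := (M : Ω)⁻¹ • ∑ j ∈ Finset.range M, toEndHom (g ^ j)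
  have hM0 : (M : Ω) ≠ 0 := Nat.cast_ne_zero.mpr hM.ne'
  let p : Submodule Ω (ι → Ω) := LinearMap.ker (toEndHom g - 1)
  have hp : ∀ v, v ∈ p ↔ g v = v := by
    intro v
    rw [LinearMap.mem_ker, LinearMap.sub_apply, sub_eq_zero]
    rfl
  have hfix : ∀ v, g v = v → ∀ j : ℕ, (g ^ j) v = v := by
    intro v hv j
    induction j with
    | zero => rfl
    | succ j ih =>
      rw [pow_succ, LinearEquiv.mul_apply, hv, ih]
  have hproj : LinearMap.IsProj p e := by
    constructor
    · intro v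
      rw [hp]
      change g ((M : Ω)⁻¹ • (∑ j ∈ Finset.range M, toEndHom (g ^ j)) v) =
        (M : Ω)⁻¹ • (∑ j ∈ Finset.range M, toEndHom (g ^ j)) v
      rw [map_smul, LinearMap.sum_apply, map_sum]
      congr 1
      have h1 : ∀ j, g ((toEndHom (g ^ j)) v) = (toEndHom (g ^ (j + 1))) v := by
        intro j
        rw [pow_succ']; rfl
      simp only [h1]
      have h2 := Finset.sum_range_succ' (fun j => (toEndHom (g ^ j)) v) M
      have h3 := Finset.sum_range_succ (fun j => (toEndHom (g ^ j)) v) M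
      rw [h3, hg] at h2
      rw [pow_zero] at h2
      exact (add_right_cancel h2).symm
    · intro v hv
      rw [hp] at hv
      change (M : Ω)⁻¹ • (∑ j ∈ Finset.range M, toEndHom (g ^ j)) v = v
      rw [LinearMap.sum_apply]
      have h1 : ∀ j ∈ Finset.range M, (toEndHom (g ^ j)) v = v := fun j _ => hfix v hv j
      rw [Finset.sum_congr rfl h1, Finset.sum_const, Finset.card_range, ← Nat.cast_smul_eq_nsmul Ω,
        smul_smul, inv_mul_cancel₀ hM0, one_smul]
  have htre : LinearMap.trace Ω (ι → Ω) e = (Fintype.card ι : Ω) := by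
    change LinearMap.trace Ω (ι → Ω) ((M : Ω)⁻¹ • ∑ j ∈ Finset.range M, toEndHom (g ^ j)) = _
    rw [map_smul, map_sum]
    simp only [htr]
    rw [Finset.sum_const, Finset.card_range, nsmul_eq_mul, smul_eq_mul, inv_mul_cancel_left₀ hM0]
  rw [hproj.trace] at htre
  have hfin : Module.finrank Ω p = Module.finrank Ω (ι → Ω) := by
    rw [Module.finrank_fintype_fun_eq_card]
    exact Nat.cast_injective htre
  have htop : p = ⊤ := Submodule.eq_top_of_finrank_eq hfin
  apply LinearEquiv.ext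
  intro v
  have : v ∈ p := by rw [htop]; trivial
  exact (hp v).mp this

/-- The linear automorphism group of a homogeneous self-map of degree at least two without
nontrivial zeros is finite. -/
theorem finite_AutF {d : ℕ} (hd : 2 ≤ d) {F : ι → MvPolynomial ι Ω} (hF : IsMor d F) :
    Finite (AutF F) := by
  classical
  obtain ⟨Θ, hΘ, htr⟩ := trace_mem hd hF
  set M := (d ^ Fintype.card ι).factorial with hM
  have hMpos : 0 < M := Nat.factorial_pos _
  let A : Set (Module.End Ω (ι → Ω)) := toEndHom '' (AutF F : Set ((ι → Ω) ≃ₗ[Ω] (ι → Ω)))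
  obtain ⟨b, hbA, hbspan, hbli⟩ := exists_linearIndependent Ω A
  have hbfin : Finite b := hbli.finite
  let Φ : AutF F → (b → Ω) := fun T i =>
    LinearMap.trace Ω (ι → Ω) (toEndHom (T : (ι → Ω) ≃ₗ[Ω] (ι → Ω)) * (i : Module.End Ω (ι → Ω)))
  have hrange : Set.range Φ ⊆ Set.pi Set.univ (fun _ => Θ) := by
    rintro _ ⟨T, rfl⟩ i _
    obtain ⟨S, hS, hSi⟩ := hbA i.2
    change LinearMap.trace Ω (ι → Ω) (toEndHom (T : (ι → Ω) ≃ₗ[Ω] (ι → Ω)) *
      (i : Module.End Ω (ι → Ω))) ∈ Θ
    rw [← hSi, ← map_mul]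
    exact htr _ ((AutF F).mul_mem T.2 hS)
  have hfinrange : (Set.range Φ).Finite := (Set.Finite.pi fun _ => hΘ).subset hrange
  have hinj : Function.Injective Φ := by
    intro T T' hTT'
    let g : AutF F := T'⁻¹ * T
    -- equality of traces on the span
    have hspan : ∀ X ∈ span Ω A, LinearMap.trace Ω (ι → Ω)
        (toEndHom (T : (ι → Ω) ≃ₗ[Ω] (ι → Ω)) * X) =
        LinearMap.trace Ω (ι → Ω) (toEndHom (T' : (ι → Ω) ≃ₗ[Ω] (ι → Ω)) * X) := by
      intro X hX
      rw [← hbspan] at hX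
      induction hX using span_induction with
      | mem x hx => exact congrFun hTT' ⟨x, hx⟩
      | zero => simp
      | add x y _ _ hx hy => rw [mul_add, mul_add, map_add, map_add, hx, hy]
      | smul c x _ hx => rw [mul_smul_comm, mul_smul_comm, map_smul, map_smul, hx]
    have hg : ∀ j : ℕ, LinearMap.trace Ω (ι → Ω)
        (toEndHom ((g : (ι → Ω) ≃ₗ[Ω] (ι → Ω)) ^ j)) = (Fintype.card ι : Ω) := by
      intro j
      induction j with
      | zero =>
        rw [pow_zero, map_one, LinearMap.trace_one, Module.finrank_fintype_fun_eq_card]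
      | succ j ih =>
        let X : (ι → Ω) ≃ₗ[Ω] (ι → Ω) := (g : (ι → Ω) ≃ₗ[Ω] (ι → Ω)) ^ j *
          (T' : (ι → Ω) ≃ₗ[Ω] (ι → Ω))⁻¹
        have hX : toEndHom X ∈ span Ω A := subset_span ⟨X,
          (AutF F).mul_mem ((AutF F).pow_mem g.2 j) ((AutF F).inv_mem T'.2), rfl⟩
        have h1 := hspan _ hX
        have h2 : (g : (ι → Ω) ≃ₗ[Ω] (ι → Ω)) ^ (j + 1) =
            ((T' : (ι → Ω) ≃ₗ[Ω] (ι → Ω))⁻¹ * (T : (ι → Ω) ≃ₗ[Ω] (ι → Ω))) *
              (g : (ι → Ω) ≃ₗ[Ω] (ι → Ω)) ^ j := by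
          rw [pow_succ']; rfl
        rw [h2, mul_assoc, map_mul, LinearMap.trace_mul_comm, ← map_mul, mul_assoc, map_mul]
        change LinearMap.trace Ω (ι → Ω) (toEndHom (T : (ι → Ω) ≃ₗ[Ω] (ι → Ω)) * toEndHom X) = _
        rw [h1, LinearMap.trace_mul_comm, ← map_mul]
        change LinearMap.trace Ω (ι → Ω) (toEndHom ((g : (ι → Ω) ≃ₗ[Ω] (ι → Ω)) ^ j *
          (T' : (ι → Ω) ≃ₗ[Ω] (ι → Ω))⁻¹ * (T' : (ι → Ω) ≃ₗ[Ω] (ι → Ω)))) = _
        rw [inv_mul_cancel_right, ih]
    have hg1 := trivial_of_trace hMpos (g : (ι → Ω) ≃ₗ[Ω] (ι → Ω)) (aut_exponent hd hF _ g.2) hg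
    have hg2 : g = 1 := Subtype.ext hg1
    have h3 : T = T' * g := by
      change T = T' * (T'⁻¹ * T)
      rw [mul_inv_cancel_left]
    rw [h3, hg2, mul_one]
  have : Finite (Set.range Φ) := hfinrange
  exact Finite.of_injective (Set.rangeFactorization Φ) (fun a b h => hinj (congrArg Subtype.val h))

end FinStab

end Pool.T9h72.FM
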