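import Pool.Agent.T9h72.FM.Defs
import Pool.Agent.T9h72.FM.Deg
import Pool.Agent.T9h72.FM.FinStab

/-!
# The uniform bound for fields of definition over fields of moduli
-/

namespace Pool.T9h72.FM

open MvPolynomial

section Dyn

variable {k Ω ι : Type*} [Field k] [Field Ω] [Algebra k Ω] [Fintype ι] [DecidableEq ι]

theorem pmap_conjP (φ : GL ι Ω) (F : ι → MvPolynomial ι Ω) (v : ι → Ω) :
    pmap (conjP φ F) v = ((φ⁻¹ : GL ι Ω) : Matrix ι ι Ω).mulVec
      (pmap F ((φ : Matrix ι ι Ω).mulVec v)) := by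
  funext i
  simp only [pmap, conjP, map_sum, map_mul, MvPolynomial.eval_C]
  rw [Matrix.mulVec, dotProduct]
  refine Finset.sum_congr rfl fun j _ => ?_
  congr 1
  rw [MvPolynomial.eval, MvPolynomial.eval₂Hom_bind₁]
  rw [← MvPolynomial.eval]
  congr 1
  congr 1
  funext l
  rw [map_sum]
  simp [Matrix.mulVec, dotProduct]

theorem pmap_ext [Infinite Ω] {F G : ι → MvPolynomial ι Ω} (h : ∀ v, pmap F v = pmap G v) :
    F = G := by
  funext i
  apply MvPolynomial.funext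
  intro v
  exact congrFun (h v) i

theorem pmap_galP (σ : Ω ≃ₐ[k] Ω) (F : ι → MvPolynomial ι Ω) (v : ι → Ω) :
    pmap (galP σ F) ((sec k Ω ι σ).2 v) = (sec k Ω ι σ).2 (pmap F v) := by
  funext i
  rw [sec_snd]
  simp only [pmap, galP]
  rw [MvPolynomial.eval_map]
  have h := MvPolynomial.eval₂_comp_left (σ : Ω →+* Ω) (RingHom.id Ω) v (F i)
  rw [MvPolynomial.eval₂_id] at h
  rw [RingHom.comp_id] at h
  exact h.symm

theorem pmap_C_mul (c : Ω) (F : ι → MvPolynomial ι Ω) (v : ι → Ω) :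
    pmap (fun i => MvPolynomial.C c * F i) v = c • pmap F v := by
  funext i
  simp [pmap]

/-- The matrix of a linear automorphism. -/
noncomputable def glOf (φ : (ι → Ω) ≃ₗ[Ω] (ι → Ω)) : GL ι Ω where
  val := LinearMap.toMatrix' φ.toLinearMap
  inv := LinearMap.toMatrix' φ.symm.toLinearMap
  val_inv := by
    rw [← LinearMap.toMatrix'_comp, LinearEquiv.comp_coe, LinearEquiv.symm_trans_self]
    simp
  inv_val := by
    rw [← LinearMap.toMatrix'_comp, LinearEquiv.comp_coe, LinearEquiv.self_trans_symm]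
    simp

theorem glOf_mulVec (φ : (ι → Ω) ≃ₗ[Ω] (ι → Ω)) (v : ι → Ω) :
    ((glOf φ : GL ι Ω) : Matrix ι ι Ω).mulVec v = φ v := by
  change (LinearMap.toMatrix' φ.toLinearMap).mulVec v = φ v
  rw [LinearMap.toMatrix'_mulVec]
  rfl

theorem glOf_inv_mulVec (φ : (ι → Ω) ≃ₗ[Ω] (ι → Ω)) (v : ι → Ω) :
    (((glOf φ)⁻¹ : GL ι Ω) : Matrix ι ι Ω).mulVec v = φ.symm v := by
  change (LinearMap.toMatrix' φ.symm.toLinearMap).mulVec v = φ.symm v
  rw [LinearMap.toMatrix'_mulVec]
  rfl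

/-- The linear automorphism of a matrix. -/
noncomputable def eqOf (φ : GL ι Ω) : (ι → Ω) ≃ₗ[Ω] (ι → Ω) where
  toFun v := (φ : Matrix ι ι Ω).mulVec v
  invFun v := ((φ⁻¹ : GL ι Ω) : Matrix ι ι Ω).mulVec v
  map_add' v w := Matrix.mulVec_add _ _ _
  map_smul' c v := Matrix.mulVec_smul _ _ _
  left_inv v := by
    change ((φ⁻¹ : GL ι Ω) : Matrix ι ι Ω).mulVec ((φ : Matrix ι ι Ω).mulVec v) = v
    rw [Matrix.mulVec_mulVec, ← Units.val_mul, inv_mul_cancel]
    simp
  right_inv v := by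
    change (φ : Matrix ι ι Ω).mulVec (((φ⁻¹ : GL ι Ω) : Matrix ι ι Ω).mulVec v) = v
    rw [Matrix.mulVec_mulVec, ← Units.val_mul, mul_inv_cancel]
    simp

omit [Fintype ι] [DecidableEq ι] in
theorem sec_add (σ : Ω ≃ₐ[k] Ω) (v w : ι → Ω) :
    (sec k Ω ι σ).2 (v + w) = (sec k Ω ι σ).2 v + (sec k Ω ι σ).2 w := by
  funext i
  rw [sec_snd, Pi.add_apply, map_add]
  rfl

omit [Fintype ι] [DecidableEq ι] in
theorem sec_smul (σ : Ω ≃ₐ[k] Ω) (c : Ω) (v : ι → Ω) :
    (sec k Ω ι σ).2 (c • v) = σ c • (sec k Ω ι σ).2 v := by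
  funext i
  rw [sec_snd, Pi.smul_apply, smul_eq_mul, map_mul]
  rfl

/-- The group of semilinear automorphisms commuting with the polynomial map `F`. -/
def HF (k : Type*) [Field k] [Algebra k Ω] (F : ι → MvPolynomial ι Ω) :
    Subgroup (Amb k Ω ι) where
  carrier := {h | (∀ v w : ι → Ω, h.2 (v + w) = h.2 v + h.2 w) ∧
    (∀ (c : Ω) (v : ι → Ω), h.2 (c • v) = h.1 c • h.2 v) ∧
    ∀ v, h.2 (pmap F v) = pmap F (h.2 v)}
  one_mem' := ⟨fun _ _ => rfl, fun _ _ => rfl, fun _ => rfl⟩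
  mul_mem' := by
    rintro a b ⟨ha1, ha2, ha3⟩ ⟨hb1, hb2, hb3⟩
    refine ⟨fun v w => ?_, fun c v => ?_, fun v => ?_⟩
    · change a.2 (b.2 (v + w)) = a.2 (b.2 v) + a.2 (b.2 w)
      rw [hb1, ha1]
    · change a.2 (b.2 (c • v)) = a.1 (b.1 c) • a.2 (b.2 v)
      rw [hb2, ha2]
    · change a.2 (b.2 (pmap F v)) = pmap F (a.2 (b.2 v))
      rw [hb3, ha3]
  inv_mem' := by
    rintro a ⟨ha1, ha2, ha3⟩
    refine ⟨fun v w => ?_, fun c v => ?_, fun v => ?_⟩
    · change a.2.symm (v + w) = a.2.symm v + a.2.symm w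
      rw [Equiv.symm_apply_eq, ha1, Equiv.apply_symm_apply, Equiv.apply_symm_apply]
    · change a.2.symm (c • v) = a.1.symm c • a.2.symm v
      rw [Equiv.symm_apply_eq, ha2, Equiv.apply_symm_apply, AlgEquiv.apply_symm_apply]
    · change a.2.symm (pmap F v) = pmap F (a.2.symm v)
      rw [Equiv.symm_apply_eq, ha3, Equiv.apply_symm_apply]

theorem HF_semi (F : ι → MvPolynomial ι Ω) : IsSemi (HF k F) :=
  ⟨fun _ hh => hh.1, fun _ hh => hh.2.1⟩

theorem HF_op (F : ι → MvPolynomial ι Ω) : IsOp (HF k F) := by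
  classical
  refine ⟨Finset.univ.biUnion fun i => (F i).support.image fun m => (F i).coeff m,
    fun σ hσ => ⟨sec_add σ, sec_smul σ, ?_⟩⟩
  · intro v
    have hgal : galP σ F = F := by
      funext i
      apply MvPolynomial.ext
      intro m
      simp only [galP, MvPolynomial.coeff_map]
      by_cases hm : m ∈ (F i).support
      · apply hσ
        rw [Finset.mem_biUnion]
        exact ⟨i, Finset.mem_univ _, Finset.mem_image_of_mem _ hm⟩
      · rw [MvPolynomial.notMem_support_iff.mp hm]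
        simp
    rw [← pmap_galP, hgal]

theorem HF_lin_finite [IsAlgClosed Ω] [CharZero Ω] {d : ℕ} (hd : 2 ≤ d)
    {F : ι → MvPolynomial ι Ω} (hF : IsMor d F) : Finite (lin (HF k F)) := by
  have := finite_AutF hd hF
  let g : lin (HF k F) → AutF F := fun h =>
    ⟨{ toFun := (h : Amb k Ω ι).2
       invFun := (h : Amb k Ω ι).2.symm
       left_inv := (h : Amb k Ω ι).2.left_inv
       right_inv := (h : Amb k Ω ι).2.right_inv
       map_add' := (mem_lin.mp (Subtype.property h)).1.1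
       map_smul' := by
        intro c v
        have h1 := (mem_lin.mp (Subtype.property h)).1.2.1 c v
        rw [(mem_lin.mp (Subtype.property h)).2] at h1
        exact h1 }, (mem_lin.mp (Subtype.property h)).1.2.2⟩
  refine Finite.of_injective g ?_
  intro a b hab
  apply Subtype.ext
  apply Prod.ext
  · rw [(mem_lin.mp (Subtype.property a)).2, (mem_lin.mp (Subtype.property b)).2]
  · apply Equiv.ext
    intro v
    have h1 := congrArg (fun T : AutF F => (T : (ι → Ω) ≃ₗ[Ω] (ι → Ω)) v) hab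
    exact h1

/-- The scalar part of an element of `HF` conjugates `F` to a Galois conjugate. -/
theorem HF_areConj [Infinite Ω] (F : ι → MvPolynomial ι Ω) (h : Amb k Ω ι) (hh : h ∈ HF k F) :
    AreConj F (galP h.1 F) := by
  obtain ⟨h1, h2, h3⟩ := hh
  -- the linear part
  let T : (ι → Ω) ≃ₗ[Ω] (ι → Ω) :=
    { toFun := fun v => h.2 ((sec k Ω ι h.1).2.symm v)
      invFun := fun v => (sec k Ω ι h.1).2 (h.2.symm v)
      left_inv := by
        intro v
        change (sec k Ω ι h.1).2 (h.2.symm (h.2 ((sec k Ω ι h.1).2.symm v))) = v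
        rw [Equiv.symm_apply_apply, Equiv.apply_symm_apply]
      right_inv := by
        intro v
        change h.2 ((sec k Ω ι h.1).2.symm ((sec k Ω ι h.1).2 (h.2.symm v))) = v
        rw [Equiv.symm_apply_apply, Equiv.apply_symm_apply]
      map_add' := by
        intro v w
        have : (sec k Ω ι h.1).2.symm (v + w) =
            (sec k Ω ι h.1).2.symm v + (sec k Ω ι h.1).2.symm w := by
          rw [Equiv.symm_apply_eq, sec_add, Equiv.apply_symm_apply, Equiv.apply_symm_apply]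
        rw [this, h1]
      map_smul' := by
        intro c v
        have : (sec k Ω ι h.1).2.symm (c • v) =
            (h.1.symm c) • (sec k Ω ι h.1).2.symm v := by
          rw [Equiv.symm_apply_eq, sec_smul, Equiv.apply_symm_apply, AlgEquiv.apply_symm_apply]
        rw [this, h2, AlgEquiv.apply_symm_apply]
        rfl }
  have hT : ∀ v, T ((sec k Ω ι h.1).2 v) = h.2 v := by
    intro v
    change h.2 ((sec k Ω ι h.1).2.symm ((sec k Ω ι h.1).2 v)) = h.2 v
    rw [Equiv.symm_apply_apply]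
  refine ⟨glOf T, 1, one_ne_zero, ?_⟩
  have key : galP h.1 F = conjP (glOf T) F := by
    apply pmap_ext
    intro v
    obtain ⟨w, rfl⟩ := (sec k Ω ι h.1).2.surjective v
    rw [pmap_galP, pmap_conjP, glOf_mulVec, glOf_inv_mulVec, LinearEquiv.eq_symm_apply, hT, hT,
      h3]
  intro i
  rw [key]
  simp

/-- Conversely, if `F ^ σ` is conjugate to `F`, then `σ` is the scalar part of some element of
`HF`. -/
theorem areConj_HF [IsAlgClosed Ω] {d : ℕ} (hd : 2 ≤ d) {F : ι → MvPolynomial ι Ω}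
    (hF : IsMor d F) (σ : Ω ≃ₐ[k] Ω) (h : AreConj F (galP σ F)) :
    ∃ h ∈ HF k F, h.1 = σ := by
  obtain ⟨φ, c, hc, hφ⟩ := h
  obtain ⟨z, hz⟩ := IsAlgClosed.exists_pow_nat_eq c (n := d - 1) (by omega)
  have hz0 : z ≠ 0 := by
    rintro rfl
    rw [zero_pow (by omega)] at hz
    exact hc hz.symm
  have hgal : galP σ F = fun i => MvPolynomial.C c * conjP φ F i := funext hφ
  let T : (ι → Ω) ≃ₗ[Ω] (ι → Ω) := (eqOf φ).trans (LinearEquiv.smulOfNeZero Ω (ι → Ω) z hz0)
  have hTv : ∀ v, T v = z • (φ : Matrix ι ι Ω).mulVec v := fun v => rfl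
  have hcomm : ∀ v, T (pmap (galP σ F) v) = pmap F (T v) := by
    intro v
    rw [hgal, pmap_C_mul, pmap_conjP, hTv, hTv, pmap_smul hF, Matrix.mulVec_smul,
      Matrix.mulVec_mulVec, ← Units.val_mul, mul_inv_cancel, Units.val_one, Matrix.one_mulVec,
      smul_smul, ← hz, ← pow_succ']
    congr 2
    omega
  refine ⟨(σ, (sec k Ω ι σ).2.trans T.toEquiv), ⟨?_, ?_, ?_⟩, rfl⟩
  · intro v w
    change T ((sec k Ω ι σ).2 (v + w)) = T ((sec k Ω ι σ).2 v) + T ((sec k Ω ι σ).2 w)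
    rw [sec_add, map_add]
  · intro a v
    change T ((sec k Ω ι σ).2 (a • v)) = σ a • T ((sec k Ω ι σ).2 v)
    rw [sec_smul, map_smul]
  · intro v
    change T ((sec k Ω ι σ).2 (pmap F v)) = pmap F (T ((sec k Ω ι σ).2 v))
    rw [← pmap_galP, hcomm]

theorem fom_eq [IsAlgClosed Ω] {d : ℕ} (hd : 2 ≤ d) {F : ι → MvPolynomial ι Ω}
    (hF : IsMor d F) : fom k F = fixF (HF k F) := by
  have : Infinite Ω := IsAlgClosed.instInfinite
  apply le_antisymm
  · intro x hx h hh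
    exact hx h.1 (HF_areConj F h hh)
  · intro x hx σ hσ
    obtain ⟨h, hh, rfl⟩ := areConj_HF hd hF σ hσ
    exact hx h hh

/-- The main bound: every morphism has a field of definition of bounded degree over its field of
moduli. -/
theorem main_dyn [IsAlgClosed Ω] [CharZero Ω] [Algebra.IsAlgebraic k Ω] {d : ℕ} (hd : 2 ≤ d)
    {F : ι → MvPolynomial ι Ω} (hF : IsMor d F) :
    ∃ L : IntermediateField k Ω, IsFOD k F L ∧ fom k F ≤ L ∧
      (fom k F).relrank L ≤ ((((Fintype.card ι ^ 3) ^ Fintype.card ι) ^ Fintype.card ι : ℕ) :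
        Cardinal) := by
  have : Infinite Ω := IsAlgClosed.instInfinite
  obtain ⟨H', hH', hop, hbd, hlin⟩ := main_group (HF_semi (k := k) F) (HF_op F)
    (HF_lin_finite hd hF)
  obtain ⟨φ, hφ⟩ := conj_coord ((HF_semi F).mono hH') hop hlin
  rw [fom_eq hd hF]
  refine ⟨fixF H', ⟨glOf φ, 1, one_ne_zero, ?_⟩, fixF_mono hH', relrank_fixF hH' hbd⟩
  intro i m h hh
  rw [map_one, one_mul]
  have hgal : galP h.1 (conjP (glOf φ) F) = conjP (glOf φ) F := by
    apply pmap_ext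
    intro v
    obtain ⟨w, rfl⟩ := (sec k Ω ι h.1).2.surjective v
    rw [pmap_galP, pmap_conjP, pmap_conjP, glOf_mulVec, glOf_inv_mulVec, glOf_mulVec,
      glOf_inv_mulVec, ← hφ h hh, ← (hH' hh).2.2, LinearEquiv.eq_symm_apply, ← hφ h hh,
      LinearEquiv.apply_symm_apply]
  have h1 := congrFun hgal i
  have h2 := congrArg (MvPolynomial.coeff m) h1
  simp only [galP, MvPolynomial.coeff_map] at h2
  exact h2

/-- The Galois conjugate of an invertible matrix. -/
noncomputable def glMap (σ : Ω ≃ₐ[k] Ω) (φ : GL ι Ω) : GL ι Ω :=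
  Matrix.GeneralLinearGroup.map (σ : Ω →+* Ω) φ

theorem glMap_mulVec (σ : Ω ≃ₐ[k] Ω) (φ : GL ι Ω) (v : ι → Ω) :
    ((glMap σ φ : GL ι Ω) : Matrix ι ι Ω).mulVec ((sec k Ω ι σ).2 v) =
      (sec k Ω ι σ).2 ((φ : Matrix ι ι Ω).mulVec v) := by
  funext i
  rw [sec_snd]
  simp only [Matrix.mulVec, dotProduct, map_sum, map_mul]
  rfl

theorem glMap_inv (σ : Ω ≃ₐ[k] Ω) (φ : GL ι Ω) : (glMap σ φ)⁻¹ = glMap σ φ⁻¹ :=
  (map_inv (Matrix.GeneralLinearGroup.map (σ : Ω →+* Ω)) φ).symm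

/-- Every field of definition contains the field of moduli. -/
theorem fom_le_of_isFOD [IsAlgClosed Ω] [CharZero Ω] [Algebra.IsAlgebraic k Ω] [CharZero k]
    (F : ι → MvPolynomial ι Ω) (L : IntermediateField k Ω) (hL : IsFOD k F L) :
    fom k F ≤ L := by
  have hinf : Infinite Ω := IsAlgClosed.instInfinite
  obtain ⟨φ, c, hc, hφ⟩ := hL
  intro x hx
  have hnormal : Normal k Ω := by
    have : IsAlgClosure k Ω := ⟨inferInstance, inferInstance⟩
    exact IsAlgClosure.normal k Ω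
  have hgalois : IsGalois k Ω := ⟨⟩
  rw [← InfiniteGalois.fixedField_fixingSubgroup L, IntermediateField.mem_fixedField_iff]
  intro σ hσ
  have hσL : ∀ y ∈ L, σ y = y := fun y hy => hσ ⟨y, hy⟩
  apply hx
  -- `G = c • conjP φ F` is fixed by `σ`
  have hG : galP σ (fun i => MvPolynomial.C c * conjP φ F i) =
      fun i => MvPolynomial.C c * conjP φ F i := by
    funext i
    apply MvPolynomial.ext
    intro m
    simp only [galP, MvPolynomial.coeff_map]
    exact hσL _ (hφ i m)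
  have hσc : σ c ≠ 0 := by
    rw [Ne, EmbeddingLike.map_eq_zero_iff]; exact hc
  refine ⟨φ * (glMap σ φ)⁻¹, c / σ c, div_ne_zero hc hσc, ?_⟩
  have key : galP σ F = fun i => MvPolynomial.C (c / σ c) * conjP (φ * (glMap σ φ)⁻¹) F i := by
    apply pmap_ext
    intro v
    obtain ⟨w, rfl⟩ := (sec k Ω ι σ).2.surjective v
    rw [pmap_galP, pmap_C_mul, pmap_conjP]
    -- apply the identity for `G` at `(φ⁻¹) w`
    let u : ι → Ω := ((φ⁻¹ : GL ι Ω) : Matrix ι ι Ω).mulVec w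
    have hφu : (φ : Matrix ι ι Ω).mulVec u = w := by
      change (φ : Matrix ι ι Ω).mulVec (((φ⁻¹ : GL ι Ω) : Matrix ι ι Ω).mulVec w) = w
      rw [Matrix.mulVec_mulVec, ← Units.val_mul, mul_inv_cancel]
      simp
    have h1 := pmap_galP σ (fun i => MvPolynomial.C c * conjP φ F i) u
    rw [hG, pmap_C_mul, pmap_C_mul, pmap_conjP, pmap_conjP, hφu, sec_smul] at h1
    have h2 : ((φ * (glMap σ φ)⁻¹ : GL ι Ω) : Matrix ι ι Ω).mulVec ((sec k Ω ι σ).2 w) =
        (φ : Matrix ι ι Ω).mulVec ((sec k Ω ι σ).2 u) := by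
      rw [Units.val_mul, ← Matrix.mulVec_mulVec, glMap_inv, glMap_mulVec]
    rw [h2]
    have h3 : (((φ * (glMap σ φ)⁻¹ : GL ι Ω)⁻¹ : GL ι Ω) : Matrix ι ι Ω) =
        ((glMap σ φ : GL ι Ω) : Matrix ι ι Ω) * ((φ⁻¹ : GL ι Ω) : Matrix ι ι Ω) := by
      rw [mul_inv_rev, inv_inv, Units.val_mul]
    rw [h3, ← Matrix.mulVec_mulVec, div_eq_inv_mul, ← smul_smul, ← Matrix.mulVec_smul, h1,
      Matrix.mulVec_smul, smul_smul, inv_mul_cancel₀ hσc, one_smul, glMap_mulVec,
      Matrix.mulVec_mulVec, ← Units.val_mul, mul_inv_cancel, Units.val_one, Matrix.one_mulVec]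
  intro i
  rw [key]

end Dyn

end Pool.T9h72.FM
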