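import Pool.Agent.T9h72.FM.Kill

/-!
# The main theorem on groups of semilinear automorphisms
-/

namespace Pool.T9h72.FM

open Submodule

section GroupMain

variable {k Ω ι : Type*} [Field k] [Field Ω] [Algebra k Ω]

/-- Elements of the linear part commute with the coordinatewise action of automorphisms fixing
a suitable finite set. -/
theorem commute_sec [Fintype ι] {H : Subgroup (Amb k Ω ι)} (hH : IsSemi H)
    (hfin : Finite (lin H)) :
    ∃ F : Finset Ω, ∀ σ : Ω ≃ₐ[k] Ω, (∀ x ∈ F, σ x = x) → ∀ a ∈ lin H,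
      sec k Ω ι σ * a = a * sec k Ω ι σ := by
  classical
  obtain ⟨F, hF⟩ := smooth_fin (k := k) (J := ↥(lin H) × ι)
    (fun p => (p.1 : Amb k Ω ι).2 (Pi.basisFun Ω ι p.2))
  refine ⟨F, fun σ hσ a ha => ?_⟩
  have h1 := hF σ hσ
  have ha' := mem_lin.mp ha
  apply Prod.ext
  · change σ * a.1 = a.1 * σ
    rw [ha'.2, one_mul, mul_one]
  · apply Equiv.ext
    intro v
    let f1 : (ι → Ω) →+ (ι → Ω) :=
      { toFun := fun v => (sec k Ω ι σ).2 (a.2 v)
        map_zero' := by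
          rw [perm_zero hH a ha'.1]
          funext i
          rw [sec_snd]; simp
        map_add' := by
          intro v w
          rw [hH.1 a ha'.1]
          funext i
          rw [sec_snd, Pi.add_apply, map_add]
          rfl }
    let f2 : (ι → Ω) →+ (ι → Ω) :=
      { toFun := fun v => a.2 ((sec k Ω ι σ).2 v)
        map_zero' := by
          have : (sec k Ω ι σ).2 0 = 0 := by
            funext i
            rw [sec_snd]; simp
          rw [this, perm_zero hH a ha'.1]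
        map_add' := by
          intro v w
          have : (sec k Ω ι σ).2 (v + w) = (sec k Ω ι σ).2 v + (sec k Ω ι σ).2 w := by
            funext i
            rw [sec_snd, Pi.add_apply, map_add]
            rfl
          rw [this, hH.1 a ha'.1] }
    have hsec : ∀ (c : Ω) (v : ι → Ω),
        (sec k Ω ι σ).2 (c • v) = σ c • (sec k Ω ι σ).2 v := by
      intro c v
      funext i
      rw [sec_snd, Pi.smul_apply, smul_eq_mul, map_mul]
      rfl
    refine semi_ext (k := k) σ f1 f2 ?_ ?_ (Pi.basisFun Ω ι) ?_ v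
    · intro c m
      change (sec k Ω ι σ).2 (a.2 (c • m)) = σ c • (sec k Ω ι σ).2 (a.2 m)
      rw [hH.2 a ha'.1, ha'.2, AlgEquiv.one_apply, hsec]
    · intro c m
      change a.2 ((sec k Ω ι σ).2 (c • m)) = σ c • a.2 ((sec k Ω ι σ).2 m)
      rw [hsec, hH.2 a ha'.1, ha'.2, AlgEquiv.one_apply]
    · intro j
      change (sec k Ω ι σ).2 (a.2 (Pi.basisFun Ω ι j)) = a.2 ((sec k Ω ι σ).2 (Pi.basisFun Ω ι j))
      rw [h1 (⟨a, ha⟩, j)]
      congr 1
      funext i
      rw [sec_snd, Pi.basisFun_apply]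
      by_cases hij : i = j
      · subst hij; simp
      · simp [Pi.single_eq_of_ne hij]

/-- Frattini's argument: the linear part may be assumed nilpotent. -/
theorem frattini [Fintype ι] {H : Subgroup (Amb k Ω ι)} (hH : IsSemi H) (hop : IsOp H)
    (hfin : Finite (lin H)) :
    ∃ H' ≤ H, IsOp H' ∧ Bd 1 H' H ∧ Group.IsNilpotent (lin H') := by
  classical
  have hex : ∃ n : ℕ, ∃ H1 ≤ H, IsOp H1 ∧ (∀ h ∈ H, ∃ h' ∈ H1, h'.1 = h.1) ∧
      Nat.card (lin H1) = n := ⟨_, H, le_refl _, hop, fun h hh => ⟨h, hh, rfl⟩, rfl⟩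
  obtain ⟨H1, hH1, hop1, hsame, hcard⟩ := Nat.find_spec hex
  have hmin := fun m => Nat.find_min (H := hex) (m := m)
  rw [← hcard] at hmin
  refine ⟨H1, hH1, hop1, ⟨{1}, by simp, fun h hh => ?_⟩, ?_⟩
  · obtain ⟨h', hh', e⟩ := hsame h hh
    exact ⟨1, by simp, h', hh', by rw [one_mul, e]⟩
  have hH1s := hH.mono hH1
  have hfin1 : Finite (lin H1) :=
    Finite.of_injective (Subgroup.inclusion (lin_mono hH1)) (Subgroup.inclusion_injective _)
  let N : Subgroup H1 := (lin H1).subgroupOf H1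
  have hNmem : ∀ x : H1, x ∈ N ↔ (x : Amb k Ω ι) ∈ lin H1 := fun x => Iff.rfl
  have hNn : N.Normal := ⟨fun n hn g => conj_lin (g : Amb k Ω ι) g.2 _ hn⟩
  have eN : ↥N ≃* ↥(lin H1) := Subgroup.subgroupOfEquivOfLe (fun x hx => (mem_lin.mp hx).1)
  have hNfin : Finite ↥N := Finite.of_equiv _ eN.symm.toEquiv
  suffices hnil : Group.IsNilpotent ↥N from Group.nilpotent_of_mulEquiv eN
  refine ((Group.isNilpotent_of_finite_tfae (G := ↥N)).out 0 3 rfl rfl).mpr ?_
  intro p hp P
  have hFr := Sylow.normalizer_sup_eq_top P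
  let M : Subgroup H1 := Subgroup.normalizer (P.map N.subtype : Subgroup H1)
  have hM : M ⊔ N = ⊤ := hFr
  let H2 : Subgroup (Amb k Ω ι) := M.map H1.subtype
  have hH2 : H2 ≤ H1 := by
    rintro _ ⟨x, -, rfl⟩
    exact x.2
  have hop2 : IsOp H2 := by
    obtain ⟨F1, hF1⟩ := hop1
    obtain ⟨F2, hF2⟩ := commute_sec hH1s hfin1
    refine ⟨F1 ∪ F2, fun σ hσ => ?_⟩
    have h1 := hF1 σ fun x hx => hσ x (Finset.mem_union_left _ hx)
    have h2 := hF2 σ fun x hx => hσ x (Finset.mem_union_right _ hx)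
    refine ⟨⟨sec k Ω ι σ, h1⟩, ?_, rfl⟩
    change (⟨sec k Ω ι σ, h1⟩ : H1) ∈ Subgroup.normalizer (P.map N.subtype : Subgroup H1)
    rw [Subgroup.mem_normalizer_iff]
    have hcomm : ∀ x : H1, x ∈ N →
        (⟨sec k Ω ι σ, h1⟩ : H1) * x * (⟨sec k Ω ι σ, h1⟩ : H1)⁻¹ = x := by
      intro x hx
      apply Subtype.ext
      change sec k Ω ι σ * (x : Amb k Ω ι) * (sec k Ω ι σ)⁻¹ = x
      have h3 := h2 (x : Amb k Ω ι) hx
      rw [h3, mul_inv_cancel_right]
    intro x
    constructor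
    · intro hx
      have hxN : x ∈ N := by
        obtain ⟨y, -, rfl⟩ := hx
        exact y.2
      rw [hcomm x hxN]
      exact hx
    · intro hx
      have hxN : x ∈ N := by
        have h3 : (⟨sec k Ω ι σ, h1⟩ : H1) * x * (⟨sec k Ω ι σ, h1⟩ : H1)⁻¹ ∈ N := by
          obtain ⟨y, -, hy⟩ := hx
          rw [← hy]
          exact y.2
        have h4 := hNn.conj_mem _ h3 (⟨sec k Ω ι σ, h1⟩ : H1)⁻¹
        have h5 : (⟨sec k Ω ι σ, h1⟩ : H1)⁻¹ * ((⟨sec k Ω ι σ, h1⟩ : H1) * x *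
            (⟨sec k Ω ι σ, h1⟩ : H1)⁻¹) * (⟨sec k Ω ι σ, h1⟩ : H1)⁻¹⁻¹ = x := by group
        rwa [h5] at h4
      rwa [hcomm x hxN] at hx
  have hsame2 : ∀ h ∈ H, ∃ h' ∈ H2, h'.1 = h.1 := by
    intro h hh
    obtain ⟨h1, hh1, e⟩ := hsame h hh
    have h2 : (⟨h1, hh1⟩ : H1) ∈ M ⊔ N := by rw [hM]; trivial
    obtain ⟨x, hx, y, hy, hxy⟩ := Subgroup.mem_sup_of_normal_right.mp h2
    refine ⟨x, ⟨x, hx, rfl⟩, ?_⟩
    rw [← e]
    have h3 : (x : Amb k Ω ι) * y = h1 := congrArg Subtype.val hxy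
    rw [← h3]
    have hy' : (y : Amb k Ω ι).1 = 1 := (mem_lin.mp hy).2
    change _ = (x : Amb k Ω ι).1 * (y : Amb k Ω ι).1
    rw [hy', mul_one]
  have hcard2 : Nat.card (lin H1) ≤ Nat.card (lin H2) := by
    by_contra hcon
    push Not at hcon
    exact hmin _ hcon ⟨H2, hH2.trans hH1, hop2, hsame2, rfl⟩
  have hlin : lin H2 = lin H1 := Subgroup.eq_of_le_of_card_ge (lin_mono hH2) hcard2
  have hNM : N ≤ M := by
    intro x hx
    have h1 : (x : Amb k Ω ι) ∈ lin H1 := hx
    rw [← hlin] at h1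
    obtain ⟨y, hy, hyx⟩ := (mem_lin.mp h1).1
    have : y = x := Subtype.ext hyx
    rwa [← this]
  constructor
  intro n hn g
  have h1 : (g : H1) ∈ Subgroup.normalizer (P.map N.subtype : Subgroup H1) := hNM g.2
  rw [Subgroup.mem_normalizer_iff] at h1
  have h2 := (h1 (n : H1)).mp ⟨n, hn, rfl⟩
  obtain ⟨m, hm, hmn⟩ := h2
  have h3 : m = g * n * g⁻¹ := Subtype.ext hmn
  rw [← h3]
  exact hm

/-- The main theorem on groups of semilinear automorphisms: an open group of semilinear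
automorphisms with finite linear part contains an open subgroup with trivial linear part whose
image in the Galois group has bounded index. -/
theorem main_group [IsAlgClosed Ω] [Algebra.IsAlgebraic k Ω] [Fintype ι] [CharZero Ω]
    {H : Subgroup (Amb k Ω ι)} (hH : IsSemi H) (hop : IsOp H) (hfin : Finite (lin H)) :
    ∃ H' ≤ H, IsOp H' ∧ Bd (((Fintype.card ι ^ 3) ^ Fintype.card ι) ^ Fintype.card ι) H' H ∧
      lin H' = ⊥ := by
  obtain ⟨H1, hH1, hop1, hbd1, hnil1⟩ := frattini hH hop hfin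
  have hfin1 : Finite (lin H1) :=
    Finite.of_injective (Subgroup.inclusion (lin_mono hH1)) (Subgroup.inclusion_injective _)
  obtain ⟨H2, hH2, hop2, hbd2, hlin2⟩ := kill_lin (Fintype.card ι) (hH.mono hH1) hop1 hnil1 hfin1
    (Nat.le_add_left _ _)
  refine ⟨H2, hH2.trans hH1, hop2, ?_, hlin2⟩
  have := hbd1.trans hbd2
  rwa [one_mul] at this

/-- Descent: an open group of semilinear automorphisms with trivial linear part is conjugate to
a group acting coordinatewise. -/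
theorem conj_coord [Algebra.IsAlgebraic k Ω] [Fintype ι]
    {H : Subgroup (Amb k Ω ι)} (hH : IsSemi H) (hop : IsOp H) (hlin : lin H = ⊥) :
    ∃ φ : (ι → Ω) ≃ₗ[Ω] (ι → Ω), ∀ h ∈ H, ∀ v, h.2 (φ v) = φ ((sec k Ω ι h.1).2 v) := by
  classical
  let ρ : H →* AddMonoid.End (ι → Ω) :=
    { toFun := fun h =>
        { toFun := fun v => (h : Amb k Ω ι).2 v
          map_zero' := perm_zero hH _ h.2
          map_add' := fun v w => hH.1 _ h.2 v w }
      map_one' := by
        apply AddMonoidHom.ext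
        intro v
        rfl
      map_mul' := by
        intro a b
        apply AddMonoidHom.ext
        intro v
        rfl }
  have hρ : ∀ (h : H) v, ρ h v = (h : Amb k Ω ι).2 v := fun h v => rfl
  obtain ⟨F0, hF0⟩ := hop
  have hspan : ∀ v : ι → Ω, v ∈ span Ω {y | y ∈ (⊤ : Submodule Ω (ι → Ω)) ∧ ∀ γ, ρ γ y = y} := by
    intro v
    obtain ⟨F1, hF1⟩ := smooth_vec (k := k) v
    refine descent (rH H) ρ (fun h c w => hH.2 _ h.2 c w) (fun x => orb_fin' H x) ⊤
      (fun _ _ _ => trivial) v trivial (F0 ∪ F1) ?_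
    intro h hh
    obtain ⟨a, ha, hha⟩ := op_decomp hF0 h h.2 fun x hx => hh x (Finset.mem_union_left _ hx)
    rw [hlin, Subgroup.mem_bot] at ha
    rw [ha, one_mul] at hha
    rw [hρ, hha]
    exact hF1 _ fun x hx => hh x (Finset.mem_union_right _ hx)
  let s : Set (ι → Ω) := {y | y ∈ (⊤ : Submodule Ω (ι → Ω)) ∧ ∀ γ, ρ γ y = y}
  obtain ⟨b, hbs, hbspan, hbli⟩ := exists_linearIndependent Ω s
  have hbtop : ⊤ ≤ span Ω (Set.range ((↑) : b → (ι → Ω))) := by
    rw [Subtype.range_coe, hbspan]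
    intro v _
    exact hspan v
  let B : Module.Basis b Ω (ι → Ω) := Module.Basis.mk hbli hbtop
  have hB : ∀ i, B i = i := fun i => Module.Basis.mk_apply _ _ i
  let e : b ≃ ι := B.indexEquiv (Pi.basisFun Ω ι)
  let B' : Module.Basis ι Ω (ι → Ω) := B.reindex e
  have hB' : ∀ i (h : H), (h : Amb k Ω ι).2 (B' i) = B' i := by
    intro i h
    have h1 : B' i = (e.symm i : ι → Ω) := by
      rw [Module.Basis.reindex_apply, hB]
    rw [h1]
    exact (hbs (e.symm i).2).2 h
  let φ : (ι → Ω) ≃ₗ[Ω] (ι → Ω) := (Pi.basisFun Ω ι).equiv B' (Equiv.refl ι)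
  have hφ : ∀ i, φ (Pi.basisFun Ω ι i) = B' i := by
    intro i
    rw [Module.Basis.equiv_apply]
    rfl
  refine ⟨φ, fun h hh v => ?_⟩
  have hsec : ∀ (c : Ω) (v : ι → Ω),
      (sec k Ω ι h.1).2 (c • v) = h.1 c • (sec k Ω ι h.1).2 v := by
    intro c v
    funext i
    rw [sec_snd, Pi.smul_apply, smul_eq_mul, map_mul]
    rfl
  let f1 : (ι → Ω) →+ (ι → Ω) :=
    { toFun := fun v => h.2 (φ v)
      map_zero' := by rw [map_zero, perm_zero hH h hh]
      map_add' := by intro v w; rw [map_add, hH.1 h hh] }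
  let f2 : (ι → Ω) →+ (ι → Ω) :=
    { toFun := fun v => φ ((sec k Ω ι h.1).2 v)
      map_zero' := by
        have : (sec k Ω ι h.1).2 0 = 0 := by
          funext i
          rw [sec_snd]; simp
        rw [this, map_zero]
      map_add' := by
        intro v w
        have : (sec k Ω ι h.1).2 (v + w) = (sec k Ω ι h.1).2 v + (sec k Ω ι h.1).2 w := by
          funext i
          rw [sec_snd, Pi.add_apply, map_add]
          rfl
        rw [this, map_add] }
  refine semi_ext (k := k) h.1 f1 f2 ?_ ?_ (Pi.basisFun Ω ι) ?_ v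
  · intro c m
    change h.2 (φ (c • m)) = h.1 c • h.2 (φ m)
    rw [map_smul, hH.2 h hh]
  · intro c m
    change φ ((sec k Ω ι h.1).2 (c • m)) = h.1 c • φ ((sec k Ω ι h.1).2 m)
    rw [hsec, map_smul]
  · intro j
    change h.2 (φ (Pi.basisFun Ω ι j)) = φ ((sec k Ω ι h.1).2 (Pi.basisFun Ω ι j))
    have h1 : (sec k Ω ι h.1).2 (Pi.basisFun Ω ι j) = Pi.basisFun Ω ι j := by
      funext i
      rw [sec_snd, Pi.basisFun_apply]
      by_cases hij : i = j
      · subst hij; simp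
      · simp [Pi.single_eq_of_ne hij]
    rw [h1, hφ]
    exact hB' j ⟨h, hh⟩

end GroupMain

end Pool.T9h72.FM
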