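import Pool.Agent.T9h72.FM.Stable

/-!
# Killing the linear part
-/

namespace Pool.T9h72.FM

open Submodule

section Kill

/-- The image of a finite group under a character is the group of all `m`-th roots of unity. -/
theorem fin_units {G Ω : Type*} [Group G] [Finite G] [Field Ω] (c : G →* Ω) :
    ∃ m : ℕ, 0 < m ∧ ∀ x : Ω, x ^ m = 1 ↔ ∃ g, c g = x := by
  classical
  let f : G →* Ωˣ := c.toHomUnits
  have hf : ∀ g, ((f g : Ωˣ) : Ω) = c g := fun g => rfl
  let K : Subgroup Ωˣ := f.range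
  have hKfin : Finite K := (Set.finite_range f).to_subtype
  have : Fintype K := Fintype.ofFinite K
  have hm : 0 < Fintype.card K := Fintype.card_pos
  have hpow : ∀ g, c g ^ Fintype.card K = 1 := by
    intro g
    have h1 : (⟨f g, ⟨g, rfl⟩⟩ : ↥K) ^ Fintype.card ↥K = 1 := pow_card_eq_one
    have h2 : (f g) ^ Fintype.card ↥K = 1 := congrArg (fun x : ↥K => (x : Ωˣ)) h1
    have h3 := congrArg (fun x : Ωˣ => (x : Ω)) h2
    change ((f g ^ Fintype.card ↥K : Ωˣ) : Ω) = ((1 : Ωˣ) : Ω) at h3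
    rw [Units.val_pow_eq_pow_val, hf, Units.val_one] at h3
    exact h3
  refine ⟨Fintype.card K, hm, fun x => ⟨?_, ?_⟩⟩
  · intro hx
    let S : Finset Ω := Finset.image (fun x : ↥K => ((x : Ωˣ) : Ω)) Finset.univ
    have hScard : S.card = Fintype.card ↥K := by
      rw [Finset.card_image_of_injective, Finset.card_univ]
      intro a b hab
      exact Subtype.ext (Units.ext hab)
    have hSsub : S ⊆ Polynomial.nthRootsFinset (Fintype.card K) (1 : Ω) := by
      intro y hy
      rw [Finset.mem_image] at hy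
      obtain ⟨⟨z, g, rfl⟩, -, rfl⟩ := hy
      rw [Polynomial.mem_nthRootsFinset hm, hf]
      exact hpow g
    have hle : (Polynomial.nthRootsFinset (Fintype.card K) (1 : Ω)).card ≤ S.card := by
      rw [hScard, Polynomial.nthRootsFinset_def]
      exact (Multiset.toFinset_card_le _).trans (Polynomial.card_nthRoots _ _)
    have hEq := Finset.eq_of_subset_of_card_le hSsub hle
    have hx' : x ∈ Polynomial.nthRootsFinset (Fintype.card K) (1 : Ω) := by
      rw [Polynomial.mem_nthRootsFinset hm]; exact hx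
    rw [← hEq, Finset.mem_image] at hx'
    obtain ⟨⟨z, g, rfl⟩, -, rfl⟩ := hx'
    exact ⟨g, rfl⟩
  · rintro ⟨g, rfl⟩
    exact hpow g

variable {k Ω ι : Type*} [Field k] [Field Ω] [Algebra k Ω]

section FixVector

variable [IsAlgClosed Ω] [Algebra.IsAlgebraic k Ω] [Fintype ι]

/-- If `H` preserves the line through `w`, then some subgroup `H'` with the same image in the
Galois group fixes a nonzero vector of this line. -/
theorem fix_vector {H : Subgroup (Amb k Ω ι)} (hH : IsSemi H) (hop : IsOp H)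
    (hfin : Finite (lin H)) (w : ι → Ω) (hw : w ≠ 0)
    (hline : ∀ h ∈ H, ∃ c : Ω, h.2 w = c • w) :
    ∃ H' ≤ H, IsOp H' ∧ Bd 1 H' H ∧ ∃ z : Ω, z ≠ 0 ∧ ∀ h ∈ H', h.2 (z • w) = z • w := by
  classical
  have hline' : ∀ h : H, ∃ c : Ω, (h : Amb k Ω ι).2 w = c • w := fun h => hline h h.2
  choose c hc using hline'
  have huniq : ∀ a b : Ω, a • w = b • w → a = b := by
    intro a b hab
    have : (a - b) • w = 0 := by rw [sub_smul, hab, sub_self]
    exact sub_eq_zero.mp ((smul_eq_zero.mp this).resolve_right hw)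
  have hc1 : c 1 = 1 := huniq _ _ (by rw [← hc 1, one_smul]; rfl)
  have hcmul : ∀ a b : H, c (a * b) = rH H a (c b) * c a := by
    intro a b
    apply huniq
    rw [← hc (a * b)]
    change (a : Amb k Ω ι).2 ((b : Amb k Ω ι).2 w) = _
    rw [hc b, hH.2 _ a.2, hc a, smul_smul]
    rfl
  have hc0 : ∀ a : H, c a ≠ 0 := by
    intro a h0
    have h1 := hcmul a⁻¹ a
    rw [inv_mul_cancel, hc1, h0, map_zero, zero_mul] at h1
    exact one_ne_zero h1
  -- the character on the linear part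
  let ch : lin H →* Ω :=
    { toFun := fun a => c ⟨a, (mem_lin.mp a.2).1⟩
      map_one' := hc1
      map_mul' := by
        intro a b
        have h1 := hcmul ⟨a, (mem_lin.mp a.2).1⟩ ⟨b, (mem_lin.mp b.2).1⟩
        have h2 : rH H ⟨a, (mem_lin.mp a.2).1⟩ = 1 := (mem_lin.mp a.2).2
        rw [h2, AlgEquiv.one_apply, mul_comm] at h1
        exact h1 }
  obtain ⟨m, hm, hroots⟩ := fin_units ch
  -- descent for the twisted action on `Ω`
  let ρ : H →* AddMonoid.End Ω :=
    { toFun := fun h =>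
        { toFun := fun x => c h ^ m * rH H h x
          map_zero' := by rw [map_zero, mul_zero]
          map_add' := fun x y => by rw [map_add, mul_add] }
      map_one' := by
        apply AddMonoidHom.ext
        intro x
        change c 1 ^ m * rH H 1 x = x
        rw [hc1, one_pow, one_mul, map_one]; rfl
      map_mul' := by
        intro a b
        apply AddMonoidHom.ext
        intro x
        change c (a * b) ^ m * rH H (a * b) x = c a ^ m * rH H a (c b ^ m * rH H b x)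
        rw [hcmul, mul_pow, map_mul, AlgEquiv.mul_apply, map_mul, map_pow]
        ring }
  have hρ : ∀ h x, ρ h x = c h ^ m * rH H h x := fun h x => rfl
  obtain ⟨F0, hF0⟩ := hop
  obtain ⟨F1, hF1⟩ := smooth_vec (k := k) w
  have hsmall : ∀ h : H, (∀ x ∈ F0 ∪ F1, rH H h x = x) → c h ^ m = 1 := by
    intro h hh
    obtain ⟨a, ha, hha⟩ := op_decomp hF0 h h.2 fun x hx => hh x (Finset.mem_union_left _ hx)
    have h1 : (sec k Ω ι (h : Amb k Ω ι).1).2 w = w :=
      hF1 _ fun x hx => hh x (Finset.mem_union_right _ hx)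
    have h2 : c h = c ⟨a, (mem_lin.mp ha).1⟩ := by
      apply huniq
      rw [← hc, ← hc]
      conv_lhs => rw [hha]
      change a.2 ((sec k Ω ι (h : Amb k Ω ι).1).2 w) = a.2 w
      rw [h1]
    rw [h2]
    exact (hroots _).mpr ⟨⟨a, ha⟩, rfl⟩
  have hd := descent (rH H) ρ (fun γ x y => by
      rw [hρ, hρ, smul_eq_mul, map_mul, smul_eq_mul]; ring)
    (fun x => orb_fin' H x) ⊤ (fun _ _ _ => trivial) (1 : Ω) trivial (F0 ∪ F1) (by
      intro γ hγ
      rw [hρ, hsmall γ hγ, map_one, mul_one])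
  obtain ⟨y, hy0, hy⟩ : ∃ y : Ω, y ≠ 0 ∧ ∀ γ, ρ γ y = y := by
    by_contra hcon
    push Not at hcon
    have h1 : (1 : Ω) ∈ (⊥ : Submodule Ω Ω) := by
      refine (span_le.mpr ?_) hd
      rintro y ⟨-, hy⟩
      by_contra hy0
      obtain ⟨γ, hγ⟩ := hcon y hy0
      exact hγ (hy γ)
    exact one_ne_zero ((Submodule.mem_bot Ω).mp h1)
  obtain ⟨z, hz⟩ := IsAlgClosed.exists_pow_nat_eq y hm
  have hz0 : z ≠ 0 := by
    rintro rfl
    rw [zero_pow hm.ne'] at hz
    exact hy0 hz.symm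
  -- the subgroup fixing `z • w`
  let H' : Subgroup (Amb k Ω ι) :=
    { carrier := {h | h ∈ H ∧ h.2 (z • w) = z • w}
      one_mem' := ⟨H.one_mem, rfl⟩
      mul_mem' := by
        rintro a b ⟨ha, ha'⟩ ⟨hb, hb'⟩
        refine ⟨H.mul_mem ha hb, ?_⟩
        change a.2 (b.2 (z • w)) = _
        rw [hb', ha']
      inv_mem' := by
        rintro a ⟨ha, ha'⟩
        refine ⟨H.inv_mem ha, ?_⟩
        change a.2⁻¹ (z • w) = _
        rw [Equiv.Perm.inv_eq_iff_eq, ha'] }
  refine ⟨H', fun h hh => hh.1, ?_, ?_, z, hz0, fun h hh => hh.2⟩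
  · obtain ⟨F2, hF2⟩ := smooth_vec (k := k) (z • w)
    refine ⟨F0 ∪ F2, fun σ hσ => ⟨hF0 σ fun x hx => hσ x (Finset.mem_union_left _ hx),
      hF2 σ fun x hx => hσ x (Finset.mem_union_right _ hx)⟩⟩
  · refine ⟨{1}, by simp, fun h hh => ⟨1, by simp, ?_⟩⟩
    -- adjust `h` by an element of the linear part
    let e : Ω := h.1 z * c ⟨h, hh⟩ * z⁻¹
    have he : e ^ m = 1 := by
      have h1 := hy ⟨h, hh⟩
      rw [hρ, ← hz] at h1
      change c ⟨h, hh⟩ ^ m * h.1 (z ^ m) = z ^ m at h1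
      change (h.1 z * c ⟨h, hh⟩ * z⁻¹) ^ m = 1
      rw [map_pow] at h1
      rw [mul_pow, mul_pow, inv_pow, mul_comm (h.1 z ^ m), h1, mul_inv_cancel₀ (pow_ne_zero _ hz0)]
    obtain ⟨a, hae⟩ := (hroots e).mp he
    have ha := mem_lin.mp a.2
    have hca : c ⟨a, ha.1⟩ = e := hae
    have hcaw : (a : Amb k Ω ι).2 w = e • w := by
      have := hc ⟨a, ha.1⟩
      rw [hca] at this
      exact this
    have haz : (a : Amb k Ω ι).2 (z • w) = h.2 (z • w) := by
      rw [hH.2 _ ha.1, ha.2, AlgEquiv.one_apply, hcaw, hH.2 _ hh, hc ⟨h, hh⟩, smul_smul,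
        smul_smul]
      congr 1
      change z * (h.1 z * c ⟨h, hh⟩ * z⁻¹) = h.1 z * c ⟨h, hh⟩
      field_simp
    refine ⟨(a : Amb k Ω ι)⁻¹ * h, ⟨H.mul_mem (H.inv_mem ha.1) hh, ?_⟩, ?_⟩
    · change (a : Amb k Ω ι).2⁻¹ (h.2 (z • w)) = z • w
      rw [Equiv.Perm.inv_eq_iff_eq, haz]
    · change h.1 = 1 * ((a : Amb k Ω ι).1⁻¹ * h.1)
      rw [ha.2]
      simp

end FixVector

/-- The subspace fixed by the linear part. -/
def Fx (H : Subgroup (Amb k Ω ι)) (hH : IsSemi H) : Submodule Ω (ι → Ω) where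
  carrier := {v | ∀ a ∈ lin H, a.2 v = v}
  zero_mem' := fun a ha => perm_zero hH a (mem_lin.mp ha).1
  add_mem' := by
    intro v w hv hw a ha
    rw [hH.1 _ (mem_lin.mp ha).1, hv a ha, hw a ha]
  smul_mem' := by
    intro c v hv a ha
    rw [hH.2 _ (mem_lin.mp ha).1, hv a ha, (mem_lin.mp ha).2]; rfl

theorem mem_Fx (H : Subgroup (Amb k Ω ι)) (hH : IsSemi H) (v : ι → Ω) :
    v ∈ Fx H hH ↔ ∀ a ∈ lin H, a.2 v = v := Iff.rfl

/-- The sum of the operators of the linear part. -/
noncomputable def sumOp (H : Subgroup (Amb k Ω ι)) (hH : IsSemi H) [Fintype (lin H)] :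
    (ι → Ω) →ₗ[Ω] (ι → Ω) where
  toFun v := ∑ a : lin H, (a : Amb k Ω ι).2 v
  map_add' v w := by
    rw [← Finset.sum_add_distrib]
    exact Finset.sum_congr rfl fun a _ => hH.1 _ (mem_lin.mp a.2).1 _ _
  map_smul' c v := by
    rw [Finset.smul_sum]
    refine Finset.sum_congr rfl fun a _ => ?_
    rw [hH.2 _ (mem_lin.mp a.2).1, (mem_lin.mp a.2).2]; rfl

theorem sumOp_apply (H : Subgroup (Amb k Ω ι)) (hH : IsSemi H) [Fintype (lin H)] (v : ι → Ω) :
    sumOp H hH v = ∑ a : lin H, (a : Amb k Ω ι).2 v := rfl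

theorem sumOp_lin (H : Subgroup (Amb k Ω ι)) (hH : IsSemi H) [Fintype (lin H)] (v : ι → Ω)
    (b : Amb k Ω ι) (hb : b ∈ lin H) : sumOp H hH (b.2 v) = sumOp H hH v := by
  rw [sumOp_apply, sumOp_apply]
  refine Fintype.sum_equiv (Equiv.mulRight (⟨b, hb⟩ : lin H)) _ _ ?_
  intro a
  rfl

theorem conj_lin {H : Subgroup (Amb k Ω ι)} (h : Amb k Ω ι) (hh : h ∈ H)
    (a : Amb k Ω ι) (ha : a ∈ lin H) : h * a * h⁻¹ ∈ lin H := by
  rw [mem_lin] at ha ⊢
  refine ⟨H.mul_mem (H.mul_mem hh ha.1) (H.inv_mem hh), ?_⟩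
  change h.1 * a.1 * (h.1)⁻¹ = 1
  rw [ha.2, mul_one, mul_inv_cancel]

/-- Conjugation on the linear part. -/
def conjEquiv {H : Subgroup (Amb k Ω ι)} (h : Amb k Ω ι) (hh : h ∈ H) :
    ↥(lin H) ≃ ↥(lin H) where
  toFun a := ⟨h⁻¹ * (a : Amb k Ω ι) * (h⁻¹)⁻¹, conj_lin h⁻¹ (H.inv_mem hh) _ (Subtype.property a)⟩
  invFun a := ⟨h * (a : Amb k Ω ι) * h⁻¹, conj_lin h hh _ (Subtype.property a)⟩
  left_inv a := by
    apply Subtype.ext
    change h * (h⁻¹ * (a : Amb k Ω ι) * (h⁻¹)⁻¹) * h⁻¹ = a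
    rw [inv_inv, mul_assoc, mul_assoc, mul_inv_cancel, mul_one, mul_inv_cancel_left]
  right_inv a := by
    apply Subtype.ext
    change h⁻¹ * (h * (a : Amb k Ω ι) * h⁻¹) * (h⁻¹)⁻¹ = a
    rw [inv_inv, mul_assoc, mul_assoc, inv_mul_cancel, mul_one, inv_mul_cancel_left]

theorem conjEquiv_apply {H : Subgroup (Amb k Ω ι)} (h : Amb k Ω ι) (hh : h ∈ H)
    (a : ↥(lin H)) (v : ι → Ω) :
    (a : Amb k Ω ι).2 (h.2 v) = h.2 ((conjEquiv h hh a : Amb k Ω ι).2 v) := by
  have h1 : (a : Amb k Ω ι) * h = h * (conjEquiv h hh a : Amb k Ω ι) := by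
    change (a : Amb k Ω ι) * h = h * (h⁻¹ * (a : Amb k Ω ι) * (h⁻¹)⁻¹)
    rw [inv_inv, mul_assoc, mul_inv_cancel_left]
  exact congrArg (fun x : Amb k Ω ι => x.2 v) h1

theorem sumOp_conj (H : Subgroup (Amb k Ω ι)) (hH : IsSemi H) [Fintype (lin H)] (v : ι → Ω)
    (h : Amb k Ω ι) (hh : h ∈ H) : sumOp H hH (h.2 v) = h.2 (sumOp H hH v) := by
  let f : (ι → Ω) →+ (ι → Ω) :=
    { toFun := fun v => h.2 v
      map_zero' := perm_zero hH h hh
      map_add' := fun v w => hH.1 h hh v w }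
  have hf : ∀ v, f v = h.2 v := fun v => rfl
  rw [sumOp_apply, sumOp_apply, ← hf (∑ a : lin H, (a : Amb k Ω ι).2 v), map_sum]
  exact Fintype.sum_equiv (conjEquiv h hh) _ _ fun a => conjEquiv_apply h hh a v

/-- Killing the linear part. -/
theorem kill_lin [IsAlgClosed Ω] [Algebra.IsAlgebraic k Ω] [Fintype ι] [CharZero Ω] (j : ℕ) : ∀ {H : Subgroup (Amb k Ω ι)} (hH : IsSemi H)
    (_ : IsOp H) (_ : Group.IsNilpotent (lin H)) (_ : Finite (lin H))
    (_ : Fintype.card ι ≤ Module.finrank Ω (Fx H hH) + j),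
    ∃ H' ≤ H, IsOp H' ∧ Bd (((Fintype.card ι ^ 3) ^ Fintype.card ι) ^ j) H' H ∧ lin H' = ⊥ := by
  induction j with
  | zero =>
    intro H hH hop hnil hfin hcard
    refine ⟨H, le_refl _, hop, by rw [pow_zero]; exact Bd.refl H, ?_⟩
    have h1 : Fx H hH = ⊤ := by
      apply Submodule.eq_top_of_finrank_eq
      rw [Module.finrank_fintype_fun_eq_card]
      have := finrank_le (Fx H hH)
      omega
    rw [eq_bot_iff]
    intro a ha
    rw [Subgroup.mem_bot]
    apply Prod.ext (mem_lin.mp ha).2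
    apply Equiv.ext
    intro v
    have : v ∈ Fx H hH := by rw [h1]; trivial
    exact this a ha
  | succ j ih =>
    intro H hH hop hnil hfin hcard
    by_cases htriv : lin H = ⊥
    · refine ⟨H, le_refl _, hop, ?_, htriv⟩
      refine (Bd.refl H).mono (Nat.one_le_pow _ _ ?_)
      rcases Nat.eq_zero_or_pos (Fintype.card ι) with h0 | h0
      · rw [h0]; norm_num
      · positivity
    · have : Fintype (lin H) := Fintype.ofFinite _
      let W : Submodule Ω (ι → Ω) := LinearMap.ker (sumOp H hH)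
      have hWst : Stab H W := by
        intro h hh w hw
        change sumOp H hH (h.2 w) = 0
        have hw' : sumOp H hH w = 0 := hw
        rw [sumOp_conj H hH w h hh, hw', perm_zero hH h hh]
      have hW0 : W ≠ ⊥ := by
        intro hW
        apply htriv
        rw [eq_bot_iff]
        intro a ha
        rw [Subgroup.mem_bot]
        apply Prod.ext (mem_lin.mp ha).2
        apply Equiv.ext
        intro v
        have h1 : a.2 v - v ∈ W := by
          change sumOp H hH (a.2 v - v) = 0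
          rw [map_sub, sumOp_lin H hH v a ha, sub_self]
        rw [hW, Submodule.mem_bot, sub_eq_zero] at h1
        exact h1
      obtain ⟨H1, hH1, hop1, hbd1, w, hw, hw0, hwc⟩ := stable_line (Fintype.card ι) hH hop hnil
        hWst hW0 (finrank_le W)
      have hfin1 : Finite (lin H1) :=
        Finite.of_injective (Subgroup.inclusion (lin_mono hH1)) (Subgroup.inclusion_injective _)
      obtain ⟨H2, hH2, hop2, hbd2, z, hz, hzw⟩ := fix_vector (hH.mono hH1) hop1 hfin1 w hw0 hwc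
      have hH20 := hH2.trans hH1
      have hfin2 : Finite (lin H2) :=
        Finite.of_injective (Subgroup.inclusion (lin_mono hH20)) (Subgroup.inclusion_injective _)
      have hlt : Fx H hH < Fx H2 (hH.mono hH20) := by
        refine lt_of_le_of_ne ?_ ?_
        · intro v hv a ha
          exact hv a (lin_mono hH20 ha)
        · intro heq
          have h1 : z • w ∈ Fx H2 (hH.mono hH20) := fun a ha => hzw a (mem_lin.mp ha).1
          rw [← heq] at h1
          have h2 : sumOp H hH (z • w) = (Fintype.card (lin H) : Ω) • (z • w) := by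
            rw [sumOp_apply, Finset.sum_congr rfl (fun a _ => h1 _ (Subtype.property a)), Finset.sum_const,
              Finset.card_univ, Nat.cast_smul_eq_nsmul]
          have h3 : sumOp H hH (z • w) = 0 := W.smul_mem z hw
          rw [h3] at h2
          have h4 := (smul_eq_zero.mp h2.symm).resolve_right (smul_ne_zero hz hw0)
          exact Fintype.card_ne_zero (Nat.cast_eq_zero.mp h4)
      have hlt' := Submodule.finrank_lt_finrank_of_lt hlt
      obtain ⟨H3, hH3, hop3, hbd3, hlin3⟩ := ih (hH.mono hH20) hop2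
        (nil_mono (lin_mono hH20) hnil) hfin2 (by omega)
      refine ⟨H3, hH3.trans hH20, hop3, ?_, hlin3⟩
      have h := (hbd1.trans hbd2).trans hbd3
      rw [mul_one, ← pow_succ'] at h
      exact h

end Kill

end Pool.T9h72.FM
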