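import Mathlib

/-!
# Homogeneous self-maps of affine space without nontrivial zeros
-/

namespace Pool.T9h72.FM

open MvPolynomial

section Mor

variable {Ω ι : Type*} [Field Ω] [Fintype ι]

/-- The polynomial map given by a tuple of polynomials. -/
noncomputable def pmap (F : ι → MvPolynomial ι Ω) (v : ι → Ω) : ι → Ω :=
  fun i => MvPolynomial.eval v (F i)

/-- A tuple of homogeneous polynomials of degree `d` with no common zero other than `0`. -/
structure IsMor (d : ℕ) (F : ι → MvPolynomial ι Ω) : Prop where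
  homog : ∀ i, (F i).IsHomogeneous d
  nonzero : ∀ v : ι → Ω, (∀ i, MvPolynomial.eval v (F i) = 0) → v = 0

theorem eval_smul_homog {d : ℕ} {p : MvPolynomial ι Ω} (hp : p.IsHomogeneous d) (c : Ω)
    (v : ι → Ω) : MvPolynomial.eval (c • v) p = c ^ d * MvPolynomial.eval v p := by
  rw [MvPolynomial.eval_eq', MvPolynomial.eval_eq', Finset.mul_sum]
  refine Finset.sum_congr rfl fun m hm => ?_
  have hdeg : ∑ i, m i = d := by
    have h := hp.degree_eq_sum_deg_support hm
    rw [h]
    symm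
    apply Finset.sum_subset (Finset.subset_univ _)
    intro i _ hi
    exact Finsupp.notMem_support_iff.mp hi
  simp only [Pi.smul_apply, smul_eq_mul, mul_pow]
  rw [Finset.prod_mul_distrib, Finset.prod_pow_eq_pow_sum, hdeg]
  ring

theorem pmap_smul {d : ℕ} {F : ι → MvPolynomial ι Ω} (hF : IsMor d F) (c : Ω) (v : ι → Ω) :
    pmap F (c • v) = c ^ d • pmap F v := by
  funext i
  exact eval_smul_homog (hF.homog i) c v

omit [Fintype ι] in
theorem pmap_eq_zero {d : ℕ} {F : ι → MvPolynomial ι Ω} (hF : IsMor d F) {v : ι → Ω}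
    (h : pmap F v = 0) : v = 0 :=
  hF.nonzero v fun i => congrFun h i

/-- Eigenvalues of an operator commuting with `F` are stable under `λ ↦ λ ^ d`. -/
theorem eigen_pow {d : ℕ} {F : ι → MvPolynomial ι Ω} (hF : IsMor d F)
    (T : Module.End Ω (ι → Ω)) (hT : ∀ v, T (pmap F v) = pmap F (T v)) (μ : Ω)
    (hμ : T.HasEigenvalue μ) : T.HasEigenvalue (μ ^ d) := by
  obtain ⟨v, hv⟩ := hμ.exists_hasEigenvector
  refine Module.End.hasEigenvalue_of_hasEigenvector (x := pmap F v) ⟨?_, ?_⟩
  · rw [Module.End.mem_eigenspace_iff, hT, hv.apply_eq_smul, pmap_smul hF]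
  · intro h
    exact hv.2 (pmap_eq_zero hF h)

theorem eigen_root {d : ℕ} (hd : 2 ≤ d) {F : ι → MvPolynomial ι Ω} (hF : IsMor d F)
    (T : Module.End Ω (ι → Ω)) (hT : ∀ v, T (pmap F v) = pmap F (T v)) (μ : Ω)
    (hμ : T.HasEigenvalue μ) (hμ0 : μ ≠ 0) : μ ^ (d ^ Fintype.card ι).factorial = 1 := by
  classical
  have hpow : ∀ j : ℕ, T.HasEigenvalue (μ ^ d ^ j) := by
    intro j
    induction j with
    | zero => simpa using hμ
    | succ j ih =>
      have := eigen_pow hF T hT _ ih
      rwa [← pow_mul, ← pow_succ] at this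
  let S : Finset Ω := T.charpoly.roots.toFinset
  have hScard : S.card ≤ Fintype.card ι := by
    calc S.card ≤ Multiset.card T.charpoly.roots := Multiset.toFinset_card_le _
      _ ≤ T.charpoly.natDegree := Polynomial.card_roots' _
      _ = Module.finrank Ω (ι → Ω) := LinearMap.charpoly_natDegree T
      _ = Fintype.card ι := Module.finrank_fintype_fun_eq_card Ω
  have hmem : ∀ j : ℕ, μ ^ d ^ j ∈ S := by
    intro j
    rw [Multiset.mem_toFinset, Polynomial.mem_roots (LinearMap.charpoly_monic T).ne_zero,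
      ← Module.End.hasEigenvalue_iff_isRoot_charpoly]
    exact hpow j
  obtain ⟨a, ha, b, hb, hab, heq⟩ := Finset.exists_ne_map_eq_of_card_lt_of_maps_to
    (s := Finset.range (Fintype.card ι + 1)) (t := S) (by rw [Finset.card_range]; omega)
    (f := fun j => μ ^ d ^ j) (fun j _ => hmem j)
  rw [Finset.mem_range] at ha hb
  wlog hlt : a < b generalizing a b
  · exact this b hb a ha hab.symm heq.symm (by omega)
  have hdlt : d ^ a < d ^ b := Nat.pow_lt_pow_right (by omega) hlt
  have hdle : d ^ b ≤ d ^ Fintype.card ι := Nat.pow_le_pow_right (by omega) (by omega)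
  have h1 : μ ^ (d ^ b - d ^ a) = 1 := by
    have h2 : μ ^ d ^ b = μ ^ (d ^ b - d ^ a) * μ ^ d ^ a := by
      rw [← pow_add]; congr 1; omega
    rw [h2] at heq
    have h3 : μ ^ d ^ a ≠ 0 := pow_ne_zero _ hμ0
    have h4 : (μ ^ (d ^ b - d ^ a) - 1) * μ ^ d ^ a = 0 := by
      rw [sub_mul, ← heq, one_mul, sub_self]
    exact sub_eq_zero.mp ((mul_eq_zero.mp h4).resolve_right h3)
  have hdvd : d ^ b - d ^ a ∣ (d ^ Fintype.card ι).factorial :=
    Nat.dvd_factorial (by omega) (by omega)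
  obtain ⟨e, he⟩ := hdvd
  rw [he, pow_mul, h1, one_pow]

/-- The polynomial interpolating `t ↦ t ^ (-h) * C(t, j)` at `1 / t`. -/
noncomputable def bpoly (Ω : Type*) [Field Ω] (h j : ℕ) : Polynomial Ω :=
  Polynomial.C ((j.factorial : Ω)⁻¹) * Polynomial.X ^ (h - j) *
    ∏ i ∈ Finset.range j, (1 - Polynomial.C (i : Ω) * Polynomial.X)

theorem prod_eval [CharZero Ω] (t : ℕ) (ht : t ≠ 0) (j : ℕ) :
    ∏ i ∈ Finset.range j, (1 - (i : Ω) * (t : Ω)⁻¹) =
      ((t : Ω)⁻¹) ^ j * (t.descFactorial j : Ω) := by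
  have ht' : (t : Ω) ≠ 0 := Nat.cast_ne_zero.mpr ht
  induction j with
  | zero => simp
  | succ j ih =>
    rw [Finset.prod_range_succ, ih, Nat.descFactorial_succ]
    by_cases hj : j ≤ t
    · push_cast [Nat.cast_sub hj]
      have h1 : (1 : Ω) - j * (t : Ω)⁻¹ = (t : Ω)⁻¹ * (t - j) := by
        rw [mul_sub, inv_mul_cancel₀ ht']; ring
      rw [h1, pow_succ]
      ring
    · have : t.descFactorial j = 0 := Nat.descFactorial_eq_zero_iff_lt.mpr (by omega)
      rw [this]
      simp

theorem bpoly_eval [CharZero Ω] (h j : ℕ) (hj : j ≤ h) (t : ℕ) (ht : t ≠ 0) :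
    (bpoly Ω h j).eval ((t : Ω)⁻¹) = ((t : Ω)⁻¹) ^ h * (t.choose j : Ω) := by
  have ht' : (t : Ω) ≠ 0 := Nat.cast_ne_zero.mpr ht
  have hfac : (j.factorial : Ω) ≠ 0 := Nat.cast_ne_zero.mpr j.factorial_ne_zero
  rw [bpoly, Polynomial.eval_mul, Polynomial.eval_mul, Polynomial.eval_C, Polynomial.eval_pow,
    Polynomial.eval_X, Polynomial.eval_prod]
  simp only [Polynomial.eval_sub, Polynomial.eval_one, Polynomial.eval_mul, Polynomial.eval_C,
    Polynomial.eval_X]
  rw [prod_eval t ht, Nat.descFactorial_eq_factorial_mul_choose]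
  push_cast
  have h1 : ((t : Ω)⁻¹) ^ h = ((t : Ω)⁻¹) ^ (h - j) * ((t : Ω)⁻¹) ^ j := by
    rw [← pow_add]; congr 1; omega
  rw [h1]
  field_simp

theorem bpoly_zero (h j : ℕ) (hj : j < h) : (bpoly Ω h j).eval 0 = 0 := by
  rw [bpoly, Polynomial.eval_mul, Polynomial.eval_mul, Polynomial.eval_pow, Polynomial.eval_X,
    zero_pow (by omega)]
  simp

theorem bpoly_zero' (h : ℕ) : (bpoly Ω h h).eval 0 = (h.factorial : Ω)⁻¹ := by
  rw [bpoly, Polynomial.eval_mul, Polynomial.eval_mul, Polynomial.eval_prod]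
  simp

/-- Unipotent operators commuting with `F` are trivial. -/
theorem unip_trivial [CharZero Ω] {d : ℕ} (hd : 2 ≤ d) {F : ι → MvPolynomial ι Ω}
    (hF : IsMor d F) (N : Module.End Ω (ι → Ω)) (hN : IsNilpotent N)
    (hT : ∀ v, (1 + N) (pmap F v) = pmap F ((1 + N) v)) : N = 0 := by
  classical
  by_contra hN0
  have hex : ∃ n, N ^ n = 0 := hN
  obtain ⟨h, hh, hh0⟩ : ∃ h, N ^ (h + 1) = 0 ∧ N ^ h ≠ 0 := by
    cases hm : Nat.find hex with
    | zero =>
      have := Nat.find_spec hex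
      rw [hm, pow_zero] at this
      exfalso
      apply hN0
      rw [← mul_one N, this, mul_zero]
    | succ m =>
      refine ⟨m, ?_, ?_⟩
      · have := Nat.find_spec hex
        rwa [hm] at this
      · exact Nat.find_min hex (by omega)
  have hh1 : 1 ≤ h := by
    by_contra hcon
    have : h = 0 := by omega
    rw [this, zero_add, pow_one] at hh
    exact hN0 hh
  obtain ⟨x, hx⟩ : ∃ x, (N ^ h) x ≠ 0 := by
    by_contra hcon
    push Not at hcon
    exact hh0 (LinearMap.ext hcon)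
  -- powers of `1 + N`
  have hpow : ∀ (t : ℕ) (v : ι → Ω), ((1 + N) ^ t) v =
      ∑ j ∈ Finset.range (h + 1), (t.choose j : Ω) • (N ^ j) v := by
    intro t v
    have h1 : (1 + N) ^ t = ∑ j ∈ Finset.range (t + 1), (t.choose j : Ω) • N ^ j := by
      rw [add_comm, (Commute.one_right N).add_pow]
      refine Finset.sum_congr rfl fun j _ => ?_
      rw [one_pow, mul_one, Nat.cast_smul_eq_nsmul, nsmul_eq_mul, Nat.cast_comm]
    have h2 : ∀ m, h + 1 ≤ m → ∑ j ∈ Finset.range m, (t.choose j : Ω) • (N ^ j) =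
        ∑ j ∈ Finset.range (h + 1), (t.choose j : Ω) • (N ^ j) := by
      intro m hm
      symm
      apply Finset.sum_subset (Finset.range_mono hm)
      intro j _ hj
      rw [Finset.mem_range, not_lt] at hj
      have : N ^ j = 0 := by
        obtain ⟨e, rfl⟩ := Nat.exists_eq_add_of_le hj
        rw [pow_add, hh, zero_mul]
      rw [this, smul_zero]
    have h3 : ∀ m, t + 1 ≤ m → ∑ j ∈ Finset.range m, (t.choose j : Ω) • (N ^ j) =
        ∑ j ∈ Finset.range (t + 1), (t.choose j : Ω) • (N ^ j) := by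
      intro m hm
      symm
      apply Finset.sum_subset (Finset.range_mono hm)
      intro j _ hj
      rw [Finset.mem_range, not_lt] at hj
      rw [Nat.choose_eq_zero_of_lt (by omega), Nat.cast_zero, zero_smul]
    have h4 : (1 + N) ^ t = ∑ j ∈ Finset.range (h + 1), (t.choose j : Ω) • N ^ j := by
      rw [h1, ← h3 (h + 1 + (t + 1)) (by omega), h2 _ (by omega)]
    rw [h4, LinearMap.sum_apply]
    rfl
  have hcommt : ∀ (t : ℕ) (v : ι → Ω), ((1 + N) ^ t) (pmap F v) = pmap F (((1 + N) ^ t) v) := by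
    intro t
    induction t with
    | zero => intro v; simp
    | succ t ih =>
      intro v
      rw [pow_succ, Module.End.mul_apply, Module.End.mul_apply, hT, ih]
  -- the polynomial curves
  let y : ι → Polynomial Ω := fun i =>
    ∑ j ∈ Finset.range (h + 1), Polynomial.C ((N ^ j) x i) * bpoly Ω h j
  let z : ι → Polynomial Ω := fun i =>
    ∑ j ∈ Finset.range (h + 1), Polynomial.C ((N ^ j) (pmap F x) i) * bpoly Ω h j
  have hcurve : ∀ (w : ι → Ω) (t : ℕ), t ≠ 0 → ∀ i,
      (∑ j ∈ Finset.range (h + 1), Polynomial.C ((N ^ j) w i) * bpoly Ω h j).eval ((t : Ω)⁻¹) =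
        ((t : Ω)⁻¹) ^ h * ((1 + N) ^ t) w i := by
    intro w t ht i
    rw [hpow, Polynomial.eval_finsetSum, Finset.sum_apply, Finset.mul_sum]
    refine Finset.sum_congr rfl fun j hj => ?_
    rw [Finset.mem_range] at hj
    rw [Polynomial.eval_mul, Polynomial.eval_C, bpoly_eval h j (by omega) t ht, Pi.smul_apply,
      smul_eq_mul]
    ring
  let P : ι → Polynomial Ω := fun i =>
    MvPolynomial.aeval y (F i) - Polynomial.X ^ ((d - 1) * h) * z i
  have haeval : ∀ (i : ι) (s : Ω), (MvPolynomial.aeval y (F i)).eval s =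
      MvPolynomial.eval (fun l => (y l).eval s) (F i) := by
    intro i s
    have h1 := MvPolynomial.map_aeval y (Polynomial.evalRingHom s) (F i)
    rw [Polynomial.coe_evalRingHom] at h1
    rw [h1, MvPolynomial.coe_eval₂Hom, MvPolynomial.eval₂_eq_eval_map]
    have h2 : ((Polynomial.evalRingHom s).comp (algebraMap Ω (Polynomial Ω))) = RingHom.id Ω := by
      ext a; simp
    rw [h2, MvPolynomial.map_id]
  have hPt : ∀ (i : ι) (t : ℕ), t ≠ 0 → (P i).eval ((t : Ω)⁻¹) = 0 := by
    intro i t ht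
    change (MvPolynomial.aeval y (F i) - Polynomial.X ^ ((d - 1) * h) * z i).eval _ = 0
    rw [Polynomial.eval_sub, Polynomial.eval_mul, Polynomial.eval_pow, Polynomial.eval_X, haeval]
    have h1 : (fun l => (y l).eval ((t : Ω)⁻¹)) =
        (((t : Ω)⁻¹) ^ h) • ((1 + N) ^ t) x := by
      funext l
      exact hcurve x t ht l
    rw [h1, eval_smul_homog (hF.homog i)]
    have h2 : (z i).eval ((t : Ω)⁻¹) = ((t : Ω)⁻¹) ^ h * ((1 + N) ^ t) (pmap F x) i :=
      hcurve (pmap F x) t ht i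
    rw [h2, hcommt]
    change (((t : Ω)⁻¹) ^ h) ^ d * MvPolynomial.eval (((1 + N) ^ t) x) (F i) -
      ((t : Ω)⁻¹) ^ ((d - 1) * h) * (((t : Ω)⁻¹) ^ h *
        MvPolynomial.eval (((1 + N) ^ t) x) (F i)) = 0
    have h3 : (((t : Ω)⁻¹) ^ h) ^ d = ((t : Ω)⁻¹) ^ ((d - 1) * h) * ((t : Ω)⁻¹) ^ h := by
      rw [← pow_mul, ← pow_add]
      congr 1
      obtain ⟨e, rfl⟩ := Nat.exists_eq_add_of_le hd
      have : 2 + e - 1 = e + 1 := by omega
      rw [this]; ring
    rw [h3]; ring
  have hP0 : ∀ i, P i = 0 := by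
    intro i
    apply Polynomial.eq_zero_of_infinite_isRoot
    have hinf : (Set.range fun t : ℕ => (((t + 1 : ℕ) : Ω))⁻¹).Infinite := by
      apply Set.infinite_range_of_injective
      intro a b hab
      have h1 : (((a + 1 : ℕ) : Ω)) = ((b + 1 : ℕ) : Ω) := inv_injective hab
      have h2 := Nat.cast_injective (R := Ω) h1
      omega
    refine hinf.mono ?_
    rintro _ ⟨t, rfl⟩
    exact hPt i (t + 1) (by omega)
  have hy0 : (fun l => (y l).eval 0) = ((h.factorial : Ω)⁻¹) • (N ^ h) x := by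
    funext l
    change (∑ j ∈ Finset.range (h + 1), Polynomial.C ((N ^ j) x l) * bpoly Ω h j).eval 0 = _
    rw [Polynomial.eval_finsetSum, Finset.sum_range_succ, Finset.sum_eq_zero, zero_add,
      Polynomial.eval_mul, Polynomial.eval_C, bpoly_zero', Pi.smul_apply, smul_eq_mul, mul_comm]
    intro j hj
    rw [Finset.mem_range] at hj
    rw [Polynomial.eval_mul, bpoly_zero h j hj, mul_zero]
  have hzero : ((h.factorial : Ω)⁻¹) • (N ^ h) x = 0 := by
    apply hF.nonzero
    intro i
    rw [← hy0, ← haeval]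
    have h1 : (P i).eval 0 = 0 := by rw [hP0]; simp
    change (MvPolynomial.aeval y (F i) - Polynomial.X ^ ((d - 1) * h) * z i).eval 0 = 0 at h1
    rw [Polynomial.eval_sub, Polynomial.eval_mul, Polynomial.eval_pow, Polynomial.eval_X,
      zero_pow (by
        have : 0 < (d - 1) * h := Nat.mul_pos (by omega) (by omega)
        omega), zero_mul, sub_zero] at h1
    exact h1
  apply hx
  have hfac : (h.factorial : Ω)⁻¹ ≠ 0 := inv_ne_zero (Nat.cast_ne_zero.mpr h.factorial_ne_zero)
  exact (smul_eq_zero.mp hzero).resolve_left hfac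

end Mor

end Pool.T9h72.FM
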