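import Pool.Agent.T9h72.FM.Conj

/-!
# Refinement: a non-invertible operator with few conjugates
-/

namespace Pool.T9h72.FM

open Submodule

section Refine

variable {k Ω W Γ : Type*} [Group Γ] [Field k] [Field Ω] [Algebra k Ω] [IsAlgClosed Ω]
  [AddCommGroup W] [Module Ω W] [FiniteDimensional Ω W]
  (r : Γ →* (Ω ≃ₐ[k] Ω)) (ρ : Γ →* AddMonoid.End W)
  (hsemi : ∀ γ (c : Ω) (m : W), ρ γ (c • m) = r γ c • ρ γ m)

include hsemi in
/-- Case I: a non-scalar operator commutes with the linear part. -/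
theorem refine_one (horb : ∀ x : Ω, (Set.range fun γ => r γ x).Finite)
    (T0 : Module.End Ω W) (hT0 : T0 ∉ span Ω {(1 : Module.End Ω W)})
    (hcomm : ∀ a, r a = 1 → cj r ρ hsemi a T0 = T0)
    (F : Finset Ω) (hF : ∀ γ, (∀ x ∈ F, r γ x = x) → cj r ρ hsemi γ T0 = T0) :
    ∃ T : Module.End Ω W, T ≠ 0 ∧ (∃ w, w ≠ 0 ∧ T w = 0) ∧
      ∃ s : Finset (Module.End Ω W), s.card ≤ Module.finrank Ω W ∧
        ∀ γ, cj r ρ hsemi γ T ∈ s := by
  classical
  have hW : Nontrivial W := by
    by_contra h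
    rw [not_nontrivial_iff_subsingleton] at h
    apply hT0
    have : T0 = 0 := by ext w; exact Subsingleton.elim _ _
    rw [this]; exact zero_mem _
  let E : Submodule Ω (Module.End Ω W) :=
    { carrier := {T | ∀ a, r a = 1 → cj r ρ hsemi a T = T}
      zero_mem' := by
        intro a _
        exact map_zero (cjHom r ρ hsemi a)
      add_mem' := by
        intro S T hS hT a ha
        have := map_add (cjHom r ρ hsemi a) S T
        simp only [cjHom_apply] at this
        rw [this, hS a ha, hT a ha]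
      smul_mem' := by
        intro c T hT a ha
        rw [cj_smul, hT a ha, ha]; rfl }
  have hEm : ∀ T, T ∈ E ↔ ∀ a, r a = 1 → cj r ρ hsemi a T = T := fun T => Iff.rfl
  have hE : ∀ γ, ∀ e ∈ E, cjHom r ρ hsemi γ e ∈ E := by
    intro γ e he a ha
    rw [cjHom_apply, ← cj_comp]
    have h1 : a * γ = γ * (γ⁻¹ * a * γ) := by group
    rw [h1, cj_comp]
    rw [he (γ⁻¹ * a * γ) (by rw [map_mul, map_mul, ha, mul_one, map_inv, inv_mul_cancel])]
  have hd := descent r (cjHom r ρ hsemi) (fun γ c m => cj_smul r ρ hsemi γ c m) horb E hE T0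
    hcomm F hF
  -- a non-scalar invariant operator
  obtain ⟨T1, hT1E, hT1, hT1n⟩ : ∃ T1, T1 ∈ E ∧ (∀ γ, cj r ρ hsemi γ T1 = T1) ∧
      T1 ∉ span Ω {(1 : Module.End Ω W)} := by
    by_contra hcon
    push Not at hcon
    apply hT0
    refine (span_le.mpr ?_) hd
    rintro y ⟨hyE, hy⟩
    exact hcon y hyE hy
  obtain ⟨μ, hμ⟩ := Module.End.exists_eigenvalue T1
  obtain ⟨v, hv⟩ := hμ.exists_hasEigenvector
  refine ⟨T1 - μ • 1, ?_, ⟨v, hv.2, ?_⟩, ?_⟩
  · intro h
    apply hT1n
    rw [sub_eq_zero.mp h]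
    exact smul_mem _ _ (mem_span_singleton_self _)
  · rw [LinearMap.sub_apply, hv.apply_eq_smul]
    simp
  · refine ⟨(T1.charpoly.roots.toFinset).image (fun ν => T1 - ν • 1), ?_, ?_⟩
    · calc _ ≤ T1.charpoly.roots.toFinset.card := Finset.card_image_le
        _ ≤ Multiset.card T1.charpoly.roots := Multiset.toFinset_card_le _
        _ ≤ T1.charpoly.natDegree := Polynomial.card_roots' _
        _ = _ := LinearMap.charpoly_natDegree T1
    · intro γ
      rw [Finset.mem_image]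
      refine ⟨r γ μ, ?_, ?_⟩
      · rw [Multiset.mem_toFinset, Polynomial.mem_roots (LinearMap.charpoly_monic T1).ne_zero,
          ← Module.End.hasEigenvalue_iff_isRoot_charpoly]
        refine Module.End.hasEigenvalue_of_hasEigenvector (x := ρ γ v) ⟨?_, ?_⟩
        · rw [Module.End.mem_eigenspace_iff]
          conv_lhs => rw [← hT1 γ]
          rw [cj_apply', hv.apply_eq_smul, hsemi]
        · intro h
          exact hv.2 (rho_eq_zero ρ h)
      · rw [cj_sub, cj_smul, cj_one, hT1]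

include hsemi in
/-- Case II: only scalars commute with the linear part. -/
theorem refine_two (hdim : 2 ≤ Module.finrank Ω W)
    (hNil : ∀ T : Subgroup Γ, (∀ t ∈ T, r t = 1) → (∃ a, r a = 1 ∧ a ∉ T) →
      ∃ y, r y = 1 ∧ y ∉ T ∧ ∀ a, r a = 1 → a * y * a⁻¹ * y⁻¹ ∈ T)
    (hscal : ∀ T0 : Module.End Ω W, (∀ a, r a = 1 → cj r ρ hsemi a T0 = T0) →
      T0 ∈ span Ω {(1 : Module.End Ω W)}) :
    ∃ T : Module.End Ω W, T ≠ 0 ∧ (∃ w, w ≠ 0 ∧ T w = 0) ∧
      ∃ s : Finset (Module.End Ω W), s.card ≤ (Module.finrank Ω W) ^ 3 ∧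
        ∀ γ, cj r ρ hsemi γ T ∈ s := by
  classical
  have hW : Nontrivial W := Module.nontrivial_of_finrank_pos (R := Ω) (by omega)
  have hone : (1 : Module.End Ω W) ≠ 0 := one_ne_zero
  -- the scalar subgroup
  let Sc : Subgroup Γ :=
    { carrier := {t | r t = 1 ∧ ∃ c : Ω, ∀ w, ρ t w = c • w}
      one_mem' := ⟨map_one _, 1, fun w => by simp⟩
      mul_mem' := by
        rintro a b ⟨ha, c, hc⟩ ⟨hb, d, hd⟩
        refine ⟨by rw [map_mul, ha, hb, mul_one], c * d, fun w => ?_⟩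
        rw [rho_mul, hd, hc, mul_smul]
      inv_mem' := by
        rintro a ⟨ha, c, hc⟩
        refine ⟨by rw [map_inv, ha, inv_one], c⁻¹, fun w => ?_⟩
        have hc0 : c ≠ 0 := by
          rintro rfl
          obtain ⟨w, hw⟩ := exists_ne (0 : W)
          exact hw (rho_eq_zero ρ (by rw [hc, zero_smul] : ρ a w = 0))
        have h1 := hc (ρ a⁻¹ w)
        rw [rho_self_inv] at h1
        conv_rhs => rw [h1]
        rw [smul_smul, inv_mul_cancel₀ hc0, one_smul] }
  have hSc : ∀ t, t ∈ Sc ↔ r t = 1 ∧ ∃ c : Ω, ∀ w, ρ t w = c • w := fun t => Iff.rfl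
  have hSc' : ∀ t, t ∈ Sc → ∃ c : Ω, ∀ w, ρ t w = c • w := fun t ht => ht.2
  have hScn : ∀ t ∈ Sc, ∀ γ, γ * t * γ⁻¹ ∈ Sc := by
    rintro t ⟨ht, c, hc⟩ γ
    refine ⟨by rw [map_mul, map_mul, ht, mul_one, map_inv, mul_inv_cancel], r γ c, fun w => ?_⟩
    rw [rho_mul, rho_mul, hc, hsemi, rho_self_inv]
  obtain ⟨y, hy1, hySc, hyc⟩ := hNil Sc (fun t ht => ht.1) (by
    by_contra hcon
    push Not at hcon
    -- all operators are scalar
    have hall : ∀ T0 : Module.End Ω W, T0 ∈ span Ω {(1 : Module.End Ω W)} := by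
      intro T0
      apply hscal
      intro a ha
      rw [cj_lin_eq_iff]
      obtain ⟨c, hc⟩ := (hcon a ha).2
      intro w
      rw [hc, hc, map_smul]
    have h1 : Module.finrank Ω (Module.End Ω W) ≤ 1 :=
      finrank_le_one (1 : Module.End Ω W) (fun T => mem_span_singleton.mp (hall T))
    have h2 : Module.finrank Ω (Module.End Ω W) = Module.finrank Ω W * Module.finrank Ω W :=
      Module.finrank_linearMap _ _ _ _
    nlinarith)
  let y0 : Module.End Ω W := linOp r ρ hsemi y hy1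
  have hyi : r y⁻¹ = 1 := by rw [map_inv, hy1, inv_one]
  let y1 : Module.End Ω W := linOp r ρ hsemi y⁻¹ hyi
  have hy01 : y0 * y1 = 1 := by
    ext w
    exact rho_self_inv ρ y w
  have hy10 : y1 * y0 = 1 := by
    ext w
    exact rho_inv_self ρ y w
  have hy0 : ∀ γ, cj r ρ hsemi γ y0 ≠ 0 := by
    intro γ h
    apply hone
    rw [← cj_one r ρ hsemi γ, ← hy01, cj_mul, h, zero_mul]
  -- characters
  have hchar : ∀ γ (a : r.ker), ∃ c : Ω,
      cj r ρ hsemi (a : Γ) (cj r ρ hsemi γ y0) = c • cj r ρ hsemi γ y0 := by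
    intro γ a
    have ha : r (a : Γ) = 1 := a.2
    have h1 : r (γ⁻¹ * (a : Γ) * γ) = 1 := by
      rw [map_mul, map_mul, ha, mul_one, map_inv, inv_mul_cancel]
    obtain ⟨c, hc⟩ := hSc' _ (hScn _ (hyc (γ⁻¹ * (a : Γ) * γ) h1) γ)
    refine ⟨c, ?_⟩
    ext w
    rw [LinearMap.smul_apply, ← hc]
    simp only [cj_apply, y0, linOp_apply, ← rho_mul]
    congr 2
    group
  choose c hc using hchar
  let χ : Γ → (r.ker →* Ω) := fun γ =>
    { toFun := c γ
      map_one' := by
        have h := hc γ 1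
        rw [OneMemClass.coe_one, cj_unit] at h
        have h2 : (c γ 1 - 1) • cj r ρ hsemi γ y0 = 0 := by
          rw [sub_smul, ← h, one_smul, sub_self]
        exact sub_eq_zero.mp ((smul_eq_zero.mp h2).resolve_right (hy0 γ))
      map_mul' := by
        intro a b
        have h := hc γ (a * b)
        have hra : r (a : Γ) = 1 := a.2
        rw [Subgroup.coe_mul, cj_comp, hc γ b, cj_smul, hc γ a, hra, AlgEquiv.one_apply,
          smul_smul] at h
        have h2 : (c γ (a * b) - c γ a * c γ b) • cj r ρ hsemi γ y0 = 0 := by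
          rw [sub_smul, ← h, mul_comm, sub_self]
        exact sub_eq_zero.mp ((smul_eq_zero.mp h2).resolve_right (hy0 γ)) }
  have hχ : ∀ γ (a : r.ker), cj r ρ hsemi (a : Γ) (cj r ρ hsemi γ y0) =
      χ γ a • cj r ρ hsemi γ y0 := hc
  let X : Set (r.ker →* Ω) := Set.range χ
  have hX : ∀ x : X, ∃ γ, χ γ = x := fun x => x.2
  choose g hg using hX
  have hli : LinearIndependent Ω (fun x : X => cj r ρ hsemi (g x) y0) := by
    refine indep_char (A := r.ker) (fun a =>
      { toFun := fun T => cj r ρ hsemi (a : Γ) T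
        map_add' := fun S T => map_add (cjHom r ρ hsemi (a : Γ)) S T
        map_smul' := fun d T => by
          have hra : r (a : Γ) = 1 := a.2
          rw [cj_smul, hra]; rfl })
      (fun x : X => (x : r.ker →* Ω)) Subtype.val_injective _ (fun x => hy0 _) ?_
    intro x a
    rw [← hg x]
    exact hχ (g x) a
  have hfinX : Finite X := hli.finite
  have : Fintype X := Fintype.ofFinite X
  have hcardX : Fintype.card X ≤ Module.finrank Ω W * Module.finrank Ω W := by
    have h2 : Module.finrank Ω (Module.End Ω W) = Module.finrank Ω W * Module.finrank Ω W :=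
      Module.finrank_linearMap _ _ _ _
    rw [← h2]
    exact hli.fintype_card_le_finrank
  -- eigenvalue
  obtain ⟨μ, hμ⟩ := Module.End.exists_eigenvalue y0
  obtain ⟨v, hv⟩ := hμ.exists_hasEigenvector
  have hμ0 : μ ≠ 0 := by
    rintro rfl
    apply hv.2
    have h1 := hv.apply_eq_smul
    rw [zero_smul] at h1
    exact rho_eq_zero ρ (γ := y) h1
  let q : Module.End Ω W := μ⁻¹ • y0
  have hqv : q v = v := by
    change μ⁻¹ • y0 v = v
    rw [hv.apply_eq_smul, smul_smul, inv_mul_cancel₀ hμ0, one_smul]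
  refine ⟨q - 1, ?_, ⟨v, hv.2, ?_⟩, ?_⟩
  · intro h
    apply hySc
    refine ⟨hy1, μ, fun w => ?_⟩
    have h1 : q w = w := by
      rw [sub_eq_zero.mp h]; rfl
    change μ⁻¹ • y0 w = w at h1
    change y0 w = μ • w
    conv_rhs => rw [← h1]
    rw [smul_smul, mul_inv_cancel₀ hμ0, one_smul]
  · rw [LinearMap.sub_apply, hqv]
    simp
  · refine ⟨(Finset.univ : Finset X).biUnion (fun x =>
      ((cj r ρ hsemi (g x) q).charpoly.roots.toFinset).image
        (fun ν => ν⁻¹ • cj r ρ hsemi (g x) q - 1)), ?_, ?_⟩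
    · refine (Finset.card_biUnion_le_card_mul _ _ (Module.finrank Ω W) ?_).trans ?_
      · intro x _
        calc _ ≤ (cj r ρ hsemi (g x) q).charpoly.roots.toFinset.card := Finset.card_image_le
          _ ≤ Multiset.card (cj r ρ hsemi (g x) q).charpoly.roots := Multiset.toFinset_card_le _
          _ ≤ (cj r ρ hsemi (g x) q).charpoly.natDegree := Polynomial.card_roots' _
          _ = _ := LinearMap.charpoly_natDegree _
      · rw [Finset.card_univ]
        calc Fintype.card X * Module.finrank Ω W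
            ≤ (Module.finrank Ω W * Module.finrank Ω W) * Module.finrank Ω W :=
              Nat.mul_le_mul_right _ hcardX
          _ = _ := by ring
    · intro γ
      let x : X := ⟨χ γ, γ, rfl⟩
      -- the quotient of the two operators is scalar
      have hZ : cj r ρ hsemi γ y0 * cj r ρ hsemi (g x) y1 ∈ span Ω {(1 : Module.End Ω W)} := by
        apply hscal
        intro a ha
        have hgx : χ (g x) = χ γ := hg x
        have e1 : cj r ρ hsemi a (cj r ρ hsemi γ y0) = χ γ ⟨a, ha⟩ • cj r ρ hsemi γ y0 :=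
          hχ γ ⟨a, ha⟩
        have e2 : cj r ρ hsemi a (cj r ρ hsemi (g x) y0) =
            χ γ ⟨a, ha⟩ • cj r ρ hsemi (g x) y0 := by
          have := hχ (g x) ⟨a, ha⟩
          rwa [hgx] at this
        -- the inverse
        have e3 : cj r ρ hsemi (g x) y0 * cj r ρ hsemi (g x) y1 = 1 := by
          rw [← cj_mul, hy01, cj_one]
        have e3' : cj r ρ hsemi (g x) y1 * cj r ρ hsemi (g x) y0 = 1 := by
          rw [← cj_mul, hy10, cj_one]
        have e4 : χ γ ⟨a, ha⟩ • cj r ρ hsemi a (cj r ρ hsemi (g x) y1) =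
            cj r ρ hsemi (g x) y1 := by
          have h1 : cj r ρ hsemi a (cj r ρ hsemi (g x) y0) *
              cj r ρ hsemi a (cj r ρ hsemi (g x) y1) = 1 := by
            rw [← cj_mul, e3, cj_one]
          rw [e2] at h1
          calc χ γ ⟨a, ha⟩ • cj r ρ hsemi a (cj r ρ hsemi (g x) y1)
              = cj r ρ hsemi (g x) y1 * cj r ρ hsemi (g x) y0 *
                  (χ γ ⟨a, ha⟩ • cj r ρ hsemi a (cj r ρ hsemi (g x) y1)) := by
                rw [e3', one_mul]
            _ = cj r ρ hsemi (g x) y1 * ((χ γ ⟨a, ha⟩ • cj r ρ hsemi (g x) y0) *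
                  cj r ρ hsemi a (cj r ρ hsemi (g x) y1)) := by
                rw [mul_assoc, smul_mul_assoc, mul_smul_comm, mul_smul_comm]
            _ = _ := by rw [h1, mul_one]
        rw [cj_mul, e1, smul_mul_assoc, ← mul_smul_comm, e4]
      obtain ⟨d, hd⟩ := mem_span_singleton.mp hZ
      have hrel : cj r ρ hsemi γ y0 = d • cj r ρ hsemi (g x) y0 := by
        have e3' : cj r ρ hsemi (g x) y1 * cj r ρ hsemi (g x) y0 = 1 := by
          rw [← cj_mul, hy10, cj_one]
        calc cj r ρ hsemi γ y0 = cj r ρ hsemi γ y0 *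
              (cj r ρ hsemi (g x) y1 * cj r ρ hsemi (g x) y0) := by rw [e3', mul_one]
          _ = (d • 1) * cj r ρ hsemi (g x) y0 := by rw [hd, mul_assoc]
          _ = _ := by rw [smul_mul_assoc, one_mul]
      have hgμ : r (g x) μ⁻¹ ≠ 0 := by
        rw [Ne, EmbeddingLike.map_eq_zero_iff]
        exact inv_ne_zero hμ0
      let e : Ω := r γ μ⁻¹ * d * (r (g x) μ⁻¹)⁻¹
      have hrelq : cj r ρ hsemi γ q = e • cj r ρ hsemi (g x) q := by
        change cj r ρ hsemi γ (μ⁻¹ • y0) = e • cj r ρ hsemi (g x) (μ⁻¹ • y0)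
        rw [cj_smul, cj_smul, hrel, smul_smul, smul_smul]
        congr 1
        change _ = r γ μ⁻¹ * d * (r (g x) μ⁻¹)⁻¹ * _
        rw [mul_assoc, inv_mul_cancel₀ hgμ, mul_one]
      have hv' : ρ γ v ≠ 0 := fun h => hv.2 (rho_eq_zero ρ h)
      have h1 : cj r ρ hsemi γ q (ρ γ v) = ρ γ v := by rw [cj_apply', hqv]
      have he0 : e ≠ 0 := by
        intro h0
        apply hv'
        rw [← h1, hrelq, h0, zero_smul]; rfl
      have h2 : cj r ρ hsemi (g x) q (ρ γ v) = e⁻¹ • ρ γ v := by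
        rw [hrelq, LinearMap.smul_apply] at h1
        conv_rhs => rw [← h1]
        rw [smul_smul, inv_mul_cancel₀ he0, one_smul]
      rw [Finset.mem_biUnion]
      refine ⟨x, Finset.mem_univ _, ?_⟩
      rw [Finset.mem_image]
      refine ⟨e⁻¹, ?_, ?_⟩
      · rw [Multiset.mem_toFinset, Polynomial.mem_roots (LinearMap.charpoly_monic _).ne_zero,
          ← Module.End.hasEigenvalue_iff_isRoot_charpoly]
        exact Module.End.hasEigenvalue_of_hasEigenvector (x := ρ γ v)
          ⟨Module.End.mem_eigenspace_iff.mpr h2, hv'⟩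
      · rw [cj_sub, cj_one, hrelq, inv_inv]

include hsemi in
/-- The refinement lemma. -/
theorem refine_main (hdim : 2 ≤ Module.finrank Ω W)
    (horb : ∀ x : Ω, (Set.range fun γ => r γ x).Finite)
    (hNil : ∀ T : Subgroup Γ, (∀ t ∈ T, r t = 1) → (∃ a, r a = 1 ∧ a ∉ T) →
      ∃ y, r y = 1 ∧ y ∉ T ∧ ∀ a, r a = 1 → a * y * a⁻¹ * y⁻¹ ∈ T)
    (hsm : ∀ T0 : Module.End Ω W, (∀ a, r a = 1 → cj r ρ hsemi a T0 = T0) →
      ∃ F : Finset Ω, ∀ γ, (∀ x ∈ F, r γ x = x) → cj r ρ hsemi γ T0 = T0) :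
    ∃ T : Module.End Ω W, T ≠ 0 ∧ (∃ w, w ≠ 0 ∧ T w = 0) ∧
      ∃ s : Finset (Module.End Ω W), s.card ≤ (Module.finrank Ω W) ^ 3 ∧
        ∀ γ, cj r ρ hsemi γ T ∈ s := by
  by_cases h : ∀ T0 : Module.End Ω W, (∀ a, r a = 1 → cj r ρ hsemi a T0 = T0) →
      T0 ∈ span Ω {(1 : Module.End Ω W)}
  · exact refine_two r ρ hsemi hdim hNil h
  · push Not at h
    obtain ⟨T0, hT0, hT0'⟩ := h
    obtain ⟨F, hF⟩ := hsm T0 hT0
    obtain ⟨T, h1, h2, s, hs, hs'⟩ := refine_one r ρ hsemi horb T0 hT0' hT0 F hF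
    exact ⟨T, h1, h2, s, hs.trans (Nat.le_self_pow (by norm_num) _), hs'⟩

end Refine

end Pool.T9h72.FM
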