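import Pool.Agent.T9h72.FM.Amb

/-!
# Stable subspaces and stable lines after a bounded extension
-/

namespace Pool.T9h72.FM

open Submodule

section Stable

variable {k Ω ι : Type*} [Field k] [Field Ω] [Algebra k Ω]

/-- `W` is stable under `H`. -/
def Stab (H : Subgroup (Amb k Ω ι)) (W : Submodule Ω (ι → Ω)) : Prop :=
  ∀ h ∈ H, ∀ w ∈ W, h.2 w ∈ W

theorem Stab.mono {H' H : Subgroup (Amb k Ω ι)} {W : Submodule Ω (ι → Ω)} (hW : Stab H W)
    (h : H' ≤ H) : Stab H' W := fun g hg => hW g (h hg)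

/-- The scalar part of the elements of `H`. -/
def rH (H : Subgroup (Amb k Ω ι)) : H →* (Ω ≃ₐ[k] Ω) :=
  (MonoidHom.fst (Ω ≃ₐ[k] Ω) (Equiv.Perm (ι → Ω))).comp H.subtype

theorem rH_apply (H : Subgroup (Amb k Ω ι)) (h : H) : rH H h = (h : Amb k Ω ι).1 := rfl

theorem perm_zero {H : Subgroup (Amb k Ω ι)} (hH : IsSemi H) (h : Amb k Ω ι) (hh : h ∈ H) :
    h.2 0 = 0 := by
  have := hH.1 h hh 0 0
  rw [add_zero] at this
  simpa using this

/-- The action on a stable subspace. -/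
def rhoW (H : Subgroup (Amb k Ω ι)) (hH : IsSemi H) (W : Submodule Ω (ι → Ω)) (hW : Stab H W) :
    H →* AddMonoid.End W where
  toFun h :=
    { toFun := fun w => ⟨(h : Amb k Ω ι).2 w, hW _ h.2 _ w.2⟩
      map_zero' := Subtype.ext (perm_zero hH _ h.2)
      map_add' := fun v w => Subtype.ext (hH.1 _ h.2 _ _) }
  map_one' := by
    apply AddMonoidHom.ext
    intro w
    rfl
  map_mul' a b := by
    apply AddMonoidHom.ext
    intro w
    rfl

theorem rhoW_apply (H : Subgroup (Amb k Ω ι)) (hH : IsSemi H) (W : Submodule Ω (ι → Ω))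
    (hW : Stab H W) (h : H) (w : W) :
    ((rhoW H hH W hW h w : W) : ι → Ω) = (h : Amb k Ω ι).2 w := rfl

theorem rhoW_semi (H : Subgroup (Amb k Ω ι)) (hH : IsSemi H) (W : Submodule Ω (ι → Ω))
    (hW : Stab H W) (h : H) (c : Ω) (w : W) :
    rhoW H hH W hW h (c • w) = rH H h c • rhoW H hH W hW h w :=
  Subtype.ext (hH.2 _ h.2 _ _)

theorem finrank_le [Fintype ι] (W : Submodule Ω (ι → Ω)) :
    Module.finrank Ω W ≤ Fintype.card ι := by
  have := W.finrank_le
  rwa [Module.finrank_fintype_fun_eq_card] at this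

/-- All orbits of scalars are finite. -/
theorem orb_fin [Algebra.IsAlgebraic k Ω] (x : Ω) :
    (Set.range fun σ : Ω ≃ₐ[k] Ω => σ x).Finite := by
  classical
  have hx : IsIntegral k x := Algebra.IsIntegral.isIntegral x
  refine ((Polynomial.rootSet_finite (minpoly k x) Ω)).subset ?_
  rintro _ ⟨σ, rfl⟩
  rw [Polynomial.mem_rootSet]
  refine ⟨minpoly.ne_zero hx, ?_⟩
  have h : Polynomial.aeval (σ.toAlgHom x) (minpoly k x) = σ.toAlgHom (Polynomial.aeval x (minpoly k x)) :=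
    Polynomial.aeval_algHom_apply _ _ _
  have h2 : Polynomial.aeval (σ x) (minpoly k x) = σ (Polynomial.aeval x (minpoly k x)) := h
  rw [h2, minpoly.aeval, map_zero]

theorem orb_fin' [Algebra.IsAlgebraic k Ω] (H : Subgroup (Amb k Ω ι)) (x : Ω) :
    (Set.range fun h : H => rH H h x).Finite :=
  (orb_fin (k := k) x).subset (by rintro _ ⟨h, rfl⟩; exact ⟨_, rfl⟩)

/-- Operators on a stable subspace are smooth. -/
theorem smooth_end [Fintype ι] {H : Subgroup (Amb k Ω ι)} (hH : IsSemi H)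
    {W : Submodule Ω (ι → Ω)} (hW : Stab H W) (T : Module.End Ω W) :
    ∃ F : Finset Ω, ∀ σ : Ω ≃ₐ[k] Ω, (∀ x ∈ F, σ x = x) → ∀ hσ : sec k Ω ι σ ∈ H,
      cj (rH H) (rhoW H hH W hW) (rhoW_semi H hH W hW) ⟨sec k Ω ι σ, hσ⟩ T = T := by
  classical
  let b := Module.finBasis Ω W
  obtain ⟨F1, hF1⟩ := smooth_fin (k := k) (fun j => ((b j : W) : ι → Ω))
  obtain ⟨F2, hF2⟩ := smooth_fin (k := k) (fun j => ((T (b j) : W) : ι → Ω))
  refine ⟨F1 ∪ F2, fun σ hσ hσH => ?_⟩
  have h1 := hF1 σ fun x hx => hσ x (Finset.mem_union_left _ hx)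
  have h2 := hF2 σ fun x hx => hσ x (Finset.mem_union_right _ hx)
  let u : H := ⟨sec k Ω ι σ, hσH⟩
  let ρ := rhoW H hH W hW
  have hb : ∀ j, ρ u (b j) = b j := fun j => Subtype.ext (h1 j)
  have hTb : ∀ j, ρ u (T (b j)) = T (b j) := fun j => Subtype.ext (h2 j)
  have key : ∀ w, T (ρ u w) = ρ u (T w) := by
    intro w
    refine semi_ext (k := k) σ ((T : W →+ W).comp (ρ u)) ((ρ u).comp (T : W →+ W)) ?_ ?_ b ?_ w
    · intro c m
      change T (ρ u (c • m)) = σ c • T (ρ u m)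
      rw [rhoW_semi, map_smul]; rfl
    · intro c m
      change ρ u (T (c • m)) = σ c • ρ u (T m)
      rw [map_smul, rhoW_semi]; rfl
    · intro j
      change T (ρ u (b j)) = ρ u (T (b j))
      rw [hb, hTb]
  ext w
  have h3 := key (ρ u⁻¹ w)
  rw [rho_self_inv] at h3
  rw [cj_apply]
  change ((ρ u (T (ρ u⁻¹ w)) : W) : ι → Ω) _ = _
  rw [← h3]

variable [IsAlgClosed Ω] [Algebra.IsAlgebraic k Ω] [Fintype ι]

/-- After replacing `H` by a subgroup of bounded index, a stable subspace of dimension at least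
two contains a smaller nonzero stable subspace. -/
theorem proper_stable {H : Subgroup (Amb k Ω ι)} (hH : IsSemi H) (hop : IsOp H)
    (hnil : Group.IsNilpotent (lin H)) {W : Submodule Ω (ι → Ω)} (hW : Stab H W)
    (hdim : 2 ≤ Module.finrank Ω W) :
    ∃ H' ≤ H, IsOp H' ∧ Bd (Fintype.card ι ^ 3) H' H ∧
      ∃ W' ≤ W, W' ≠ ⊥ ∧ Module.finrank Ω W' < Module.finrank Ω W ∧ Stab H' W' := by
  classical
  let ρ := rhoW H hH W hW
  let r := rH H
  have hsemi := rhoW_semi H hH W hW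
  obtain ⟨T, hT0, ⟨w, hw0, hTw⟩, s, hs, hTs⟩ := refine_main r ρ hsemi hdim
    (fun x => orb_fin' H x) (by
      intro T hT hex
      obtain ⟨a, ha, haT⟩ := hex
      obtain ⟨y, hy, hyT, hy'⟩ := nil_step (lin H) (T.map H.subtype) hnil ⟨a, by
        rw [mem_lin]; exact ⟨a.2, ha⟩, by
        rintro ⟨t, ht, hta⟩
        apply haT
        have : t = a := Subtype.ext hta
        rwa [← this]⟩
      rw [mem_lin] at hy
      refine ⟨⟨y, hy.1⟩, hy.2, ?_, ?_⟩
      · intro h
        exact hyT ⟨_, h, rfl⟩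
      · intro b hb
        obtain ⟨t, ht, hte⟩ := hy' b (by rw [mem_lin]; exact ⟨b.2, hb⟩)
        have : t = b * ⟨y, hy.1⟩ * b⁻¹ * (⟨y, hy.1⟩ : H)⁻¹ := Subtype.ext hte
        rwa [← this])
    (by
      intro T0 hT0
      obtain ⟨F, hF⟩ := smooth_end hH hW T0
      obtain ⟨F0, hF0⟩ := hop
      refine ⟨F ∪ F0, fun γ hγ => ?_⟩
      have hF0' := hF0 (γ : Amb k Ω ι).1 fun x hx => hγ x (Finset.mem_union_right _ hx)
      obtain ⟨a, ha, hγa⟩ := op_decomp hF0 γ γ.2 fun x hx => hγ x (Finset.mem_union_right _ hx)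
      rw [mem_lin] at ha
      have e : γ = ⟨a, ha.1⟩ * ⟨sec k Ω ι (γ : Amb k Ω ι).1, hF0'⟩ := Subtype.ext hγa
      have hu : cj r ρ hsemi ⟨sec k Ω ι (γ : Amb k Ω ι).1, hF0'⟩ T0 = T0 :=
        hF _ (fun x hx => hγ x (Finset.mem_union_left _ hx)) hF0'
      rw [e, cj_comp, hu]
      exact hT0 _ ha.2)
  -- the stabilizer of `T`
  let S : Subgroup H :=
    { carrier := {h | cj r ρ hsemi h T = T}
      one_mem' := cj_unit r ρ hsemi T
      mul_mem' := by
        intro a b ha hb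
        change cj r ρ hsemi (a * b) T = T
        rw [cj_comp, hb, ha]
      inv_mem' := by
        intro a ha
        change cj r ρ hsemi a⁻¹ T = T
        have ha' : cj r ρ hsemi a T = T := ha
        conv_lhs => rw [← ha']
        rw [← cj_comp, inv_mul_cancel, cj_unit] }
  have hS : ∀ h, h ∈ S ↔ cj r ρ hsemi h T = T := fun h => Iff.rfl
  refine ⟨S.map H.subtype, ?_, ?_, ?_, (LinearMap.ker T).map W.subtype, ?_, ?_, ?_, ?_⟩
  · rintro _ ⟨h, _, rfl⟩
    exact h.2
  · obtain ⟨F, hF⟩ := smooth_end hH hW T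
    obtain ⟨F0, hF0⟩ := hop
    refine ⟨F ∪ F0, fun σ hσ => ?_⟩
    have h1 := hF0 σ fun x hx => hσ x (Finset.mem_union_right _ hx)
    exact ⟨⟨sec k Ω ι σ, h1⟩, hF σ (fun x hx => hσ x (Finset.mem_union_left _ hx)) h1, rfl⟩
  · have h1 := bd_of_inv H (S.map H.subtype) (fun h => cj r ρ hsemi h T) s hTs (by
      intro h h' hh
      refine ⟨h⁻¹ * h', ?_, rfl⟩
      change cj r ρ hsemi (h⁻¹ * h') T = T
      rw [cj_comp, ← hh, ← cj_comp, inv_mul_cancel, cj_unit])
    exact h1.mono (hs.trans (Nat.pow_le_pow_left (finrank_le W) 3))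
  · rintro _ ⟨v, _, rfl⟩
    exact v.2
  · intro h
    have h1 : (w : ι → Ω) ∈ (LinearMap.ker T).map W.subtype := ⟨w, hTw, rfl⟩
    rw [h, Submodule.mem_bot] at h1
    exact hw0 (Subtype.ext h1)
  · have h1 : Module.finrank Ω ((LinearMap.ker T).map W.subtype) =
        Module.finrank Ω (LinearMap.ker T) :=
      LinearEquiv.finrank_eq (Submodule.equivMapOfInjective _ W.injective_subtype _).symm
    rw [h1]
    apply Submodule.finrank_lt
    intro h
    apply hT0
    exact LinearMap.ker_eq_top.mp h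
  · rintro _ ⟨h, hh, rfl⟩ _ ⟨v, hv, rfl⟩
    refine ⟨ρ h v, ?_, rfl⟩
    have hv' : T v = 0 := hv
    change T (ρ h v) = 0
    have hh' : cj r ρ hsemi h T = T := hh
    rw [← hh', cj_apply', hv', map_zero]

/-- After replacing `H` by a subgroup of bounded index, a nonzero stable subspace contains a
stable line. -/
theorem stable_line (d : ℕ) : ∀ {H : Subgroup (Amb k Ω ι)} (_ : IsSemi H) (_ : IsOp H)
    (_ : Group.IsNilpotent (lin H)) {W : Submodule Ω (ι → Ω)} (_ : Stab H W)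
    (_ : W ≠ ⊥) (_ : Module.finrank Ω W ≤ d),
    ∃ H' ≤ H, IsOp H' ∧ Bd ((Fintype.card ι ^ 3) ^ d) H' H ∧
      ∃ w ∈ W, w ≠ 0 ∧ ∀ h ∈ H', ∃ c : Ω, h.2 w = c • w := by
  induction d with
  | zero =>
    intro H hH hop hnil W hW hW0 hd
    exfalso
    apply hW0
    rw [← Submodule.finrank_eq_zero (R := Ω)]
    omega
  | succ d ih =>
    intro H hH hop hnil W hW hW0 hd
    have hcard : 1 ≤ Fintype.card ι ^ 3 := by
      apply Nat.one_le_pow
      by_contra hcon
      apply hW0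
      rw [← Submodule.finrank_eq_zero (R := Ω)]
      have := finrank_le W
      omega
    by_cases h2 : 2 ≤ Module.finrank Ω W
    · obtain ⟨H1, hH1, hop1, hbd1, W1, hW1, hW10, hlt, hst⟩ := proper_stable hH hop hnil hW h2
      obtain ⟨H2, hH2, hop2, hbd2, w, hw, hw0, hwc⟩ := ih (hH.mono hH1) hop1
        (nil_mono (lin_mono hH1) hnil) hst hW10 (by omega)
      refine ⟨H2, hH2.trans hH1, hop2, ?_, w, hW1 hw, hw0, hwc⟩
      have := hbd1.trans hbd2
      rwa [← pow_succ'] at this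
    · refine ⟨H, le_refl _, hop, (Bd.refl H).mono (Nat.one_le_pow _ _ hcard), ?_⟩
      obtain ⟨w, hw, hw0⟩ := (Submodule.ne_bot_iff W).mp hW0
      refine ⟨w, hw, hw0, fun h hh => ?_⟩
      have h1 : Module.finrank Ω W ≤ 1 := by omega
      have h3 : Module.finrank Ω W = 1 := by
        have : Module.finrank Ω W ≠ 0 := by
          rw [Ne, Submodule.finrank_eq_zero]
          exact hW0
        omega
      obtain ⟨c, hc⟩ := exists_smul_eq_of_finrank_eq_one h3
        (x := (⟨w, hw⟩ : W)) (by intro h; exact hw0 (congrArg Subtype.val h)) ⟨h.2 w, hW h hh w hw⟩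
      exact ⟨c, (congrArg Subtype.val hc).symm⟩

end Stable

end Pool.T9h72.FM
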